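import Mathlib

/-!
# Fat points in the plane and the line `Y = 0`: basic definitions (MP_6ec8e4_ag)
-/

namespace Pool.Agent.Helper1.FH

open Polynomial

/-- Triangular numbers. -/
def T (m : ℕ) : ℕ := m * (m + 1) / 2

/-- The coefficient of `(X-u)^i (Y-w)^j` in the Taylor expansion of `F` at `(u,w)`. -/
noncomputable def tc {R : Type*} [CommRing R] (F : Polynomial (Polynomial R)) (u w : R)
    (i j : ℕ) : R :=
  (taylor u ((taylor (C w) F).coeff j)).coeff i

/-- Total degree smaller than `n`. -/
def Low {R : Type*} [CommRing R] (n : ℕ) (F : Polynomial (Polynomial R)) : Prop :=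
  ∀ i j, n ≤ i + j → (F.coeff j).coeff i = 0

/-- Slices of the vertically graded scheme `S(m;g)`: `m, m-1, ..., 1` with `g` left out. -/
def sl (m g j : ℕ) : ℕ := if j + g < m then m - j else m - 1 - j

/-- A point condition: on the line `Y = 0` (shape `S(m;g)`) or off the line (an `m`-fold point). -/
inductive Item where
  | on (m g : ℕ)
  | off (m : ℕ)
deriving DecidableEq

/-- slices of an item -/
def Item.slice : Item → ℕ → ℕ
  | .on m g, j => sl m g j
  | .off m, j => m - j

/-- the second coordinate of the point of an item -/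
def Item.y {R : Type*} [CommRing R] (x : Item) (w : R) : R :=
  match x with
  | .on _ _ => 0
  | .off _ => w

/-- next item after a Horace step -/
def Item.shift : Item → Item
  | .on m g => .on (m - 1) (min g (m - 1))
  | .off m => .off m

/-- the trace on the line -/
def Item.tr : Item → ℕ
  | .on m g => if g < m then m else m - 1
  | .off _ => 0

/-- number of conditions -/
def Item.sz : Item → ℕ
  | .on m g => T m - g
  | .off m => T m

/-- `F` satisfies the conditions of the item `x` at the point with parameters `p`. -/
def Cond {R : Type*} [CommRing R] (x : Item) (p : R × R) (F : Polynomial (Polynomial R)) : Prop :=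
  ∀ i j, i < x.slice j → tc F p.1 (x.y p.2) i j = 0

/-- no non-zero polynomial of total degree `< n` satisfies all conditions -/
def InjAt {R : Type*} [CommRing R] {ι : Type*} (n : ℕ) (x : ι → Item) (p : ι → R × R) : Prop :=
  ∀ F : Polynomial (Polynomial R), Low n F → (∀ k, Cond (x k) (p k) F) → F = 0

/-- injectivity for some real parameters -/
def Inj {ι : Type*} (n : ℕ) (x : ι → Item) : Prop :=
  ∃ p : ι → ℝ × ℝ, InjAt n x p

section basic

variable {R : Type*} [CommRing R]

lemma tc_zero (u w : R) (i j : ℕ) : tc (0 : Polynomial (Polynomial R)) u w i j = 0 := by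
  simp [tc]

lemma tc_add (F G : Polynomial (Polynomial R)) (u w : R) (i j : ℕ) :
    tc (F + G) u w i j = tc F u w i j + tc G u w i j := by
  simp [tc]

lemma tc_sum {α : Type*} (s : Finset α) (F : α → Polynomial (Polynomial R)) (u w : R) (i j : ℕ) :
    tc (∑ a ∈ s, F a) u w i j = ∑ a ∈ s, tc (F a) u w i j := by
  classical
  induction s using Finset.induction_on with
  | empty => simp [tc_zero]
  | insert a s ha ih => rw [Finset.sum_insert ha, Finset.sum_insert ha, tc_add, ih]

lemma tc_monomial (a b : ℕ) (c u w : R) (i j : ℕ) :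
    tc (monomial b (monomial a c)) u w i j
      = c * ((a.choose i : R) * (b.choose j : R) * u ^ (a - i) * w ^ (b - j)) := by
  unfold tc
  rw [taylor_coeff, taylor_coeff, hasseDeriv_monomial, eval_monomial]
  have h1 : ((b.choose j : ℕ) : Polynomial R) * monomial a c * C w ^ (b - j)
      = monomial a (c * ((b.choose j : R) * w ^ (b - j))) := by
    rw [← C_pow, mul_assoc, mul_comm ((b.choose j : ℕ) : Polynomial R), ← C_eq_natCast]
    rw [mul_assoc, ← C_mul, monomial_mul_C]
    ring_nf
  rw [h1, hasseDeriv_monomial, eval_monomial]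
  ring

lemma tc_w_zero (F : Polynomial (Polynomial R)) (u : R) (i j : ℕ) :
    tc F u 0 i j = (taylor u (F.coeff j)).coeff i := by
  unfold tc
  simp

/-- multiplication by `Y` -/
lemma tc_X_mul_zero (F : Polynomial (Polynomial R)) (u w : R) (i : ℕ) :
    tc (X * F) u w i 0 = w * tc F u w i 0 := by
  unfold tc
  rw [taylor_mul, taylor_X, add_mul, coeff_add, coeff_C_mul]
  simp [taylor_mul]

lemma tc_X_mul_succ (F : Polynomial (Polynomial R)) (u w : R) (i j : ℕ) :
    tc (X * F) u w i (j + 1) = tc F u w i j + w * tc F u w i (j + 1) := by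
  unfold tc
  rw [taylor_mul, taylor_X, add_mul, coeff_add, coeff_C_mul, coeff_X_mul]
  simp [taylor_mul]

end basic

end Pool.Agent.Helper1.FH
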