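import Pool.Agent.Helper1.FH.Hor

/-!
# The differential Horace step (MP_6ec8e4_ag)
-/

namespace Pool.Agent.Helper1.FH

open Polynomial

section col

variable {R : Type*} [CommRing R] {n : ℕ}

/-- the coefficient of `(X-u)^i` of `poly c`, as a polynomial in `Y` -/
noncomputable def colp (c : B n → R) (u : R) (i : ℕ) : Polynomial R :=
  ∑ q : B n, monomial (q.2 : ℕ) (c q * ((((q.1 : ℕ)).choose i : R) * u ^ ((q.1 : ℕ) - i)))

lemma taylor_colp (c : B n → R) (u w : R) (i j : ℕ) :
    (taylor w (colp c u i)).coeff j = tc (poly c) u w i j := by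
  unfold colp
  rw [tc_poly, map_sum, finsetSum_coeff]
  apply Finset.sum_congr rfl
  intro q _
  rw [taylor_coeff, hasseDeriv_monomial, eval_monomial]
  ring

lemma coeff_colp (c : B n → R) (u : R) (i j : ℕ) :
    (colp c u i).coeff j = tc (poly c) u 0 i j := by
  rw [← taylor_colp, taylor_zero]

lemma tc_poly_map {S : Type*} [CommRing S] (φ : R →+* S) (c : B n → R) (u w : R) (i j : ℕ) :
    tc (poly (fun q => φ (c q))) (φ u) (φ w) i j = φ (tc (poly c) u w i j) := by
  rw [tc_poly, tc_poly, map_sum]
  apply Finset.sum_congr rfl
  intro q _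
  simp

end col

lemma taylor_map_ring {R S : Type*} [CommRing R] [CommRing S] (φ : R →+* S) (u : R) (f : Polynomial R) :
    (taylor u f).map φ = taylor (φ u) (f.map φ) := by
  rw [taylor_apply, taylor_apply, Polynomial.map_comp]
  simp

/-- extraction of a vector with a non-zero reduction -/
lemma exists_primitive {β : Type*} (c : β → Polynomial ℝ) (hc : c ≠ 0) :
    ∃ (k : ℕ) (c' : β → Polynomial ℝ), (∀ b, c b = X ^ k * c' b) ∧ ∃ b, (c' b).coeff 0 ≠ 0 := by
  classical
  obtain ⟨b0, hb0⟩ := Function.ne_iff.1 hc
  have hex : ∃ k : ℕ, ¬ ∀ b, X ^ k ∣ c b := by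
    refine ⟨(c b0).natDegree + 1, fun h => ?_⟩
    have h1 := natDegree_le_of_dvd (h b0) hb0
    rw [natDegree_X_pow] at h1
    omega
  have h1 := Nat.find_spec hex
  have h2 : 0 < Nat.find hex := by
    rw [Nat.pos_iff_ne_zero]
    intro h0
    rw [h0] at h1
    exact h1 (fun b => by simp)
  have h3 : ∀ b, X ^ (Nat.find hex - 1) ∣ c b := by
    by_contra hcon
    exact Nat.find_min hex (Nat.sub_lt h2 one_pos) hcon
  choose c' hc' using h3
  refine ⟨Nat.find hex - 1, c', hc', ?_⟩
  by_contra hcon
  apply h1
  intro b
  have h4 : (c' b).coeff 0 = 0 := by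
    by_contra h5
    exact hcon ⟨b, h5⟩
  rw [← X_dvd_iff] at h4
  obtain ⟨d, hd⟩ := h4
  refine ⟨d, ?_⟩
  rw [hc' b, hd, ← mul_assoc, ← pow_succ, Nat.sub_add_cancel h2]

variable {ι : Type*} [Fintype ι] [DecidableEq ι]

/-- Horace différentielle, with a direct proof -/
theorem diff_horace {n : ℕ} {x : ι → Item} {k : ι} {m g : ℕ} (hk : x k = .off m) (hg : g ≤ m)
    (htr : n + 1 ≤ ∑ l, (x l).tr + g)
    (h : Inj n (Function.update (fun l => (x l).shift) k (.on m g))) : Inj (n + 1) x := by
  obtain ⟨p, hp, -, hw, hd⟩ := exists_good h h
  by_contra hcon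
  set t : ℝ := (p k).1 with ht
  -- the family
  set P : ι → Polynomial ℝ × Polynomial ℝ :=
    fun l => if l = k then (C t, X) else (C (p l).1, C (p l).2) with hP
  have hPk : P k = (C t, X) := by simp [hP]
  have hPl : ∀ l, l ≠ k → P l = (C (p l).1, C (p l).2) := fun l hl => by simp [hP, hl]
  have hDP : D (n + 1) x P = 0 := by
    apply Polynomial.funext
    intro e
    rw [eval_zero]
    have h1 := D_map (evalRingHom e) (n + 1) x P
    rw [coe_evalRingHom] at h1
    rw [h1]
    by_contra h2
    exact hcon ⟨_, injAt_iff_D.2 h2⟩
  unfold D at hDP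
  rw [← Matrix.exists_mulVec_eq_zero_iff] at hDP
  obtain ⟨c, hc, hc0⟩ := hDP
  have hA : (A (n + 1) x P).mulVec c = 0 := by
    funext r
    apply Polynomial.funext
    intro e
    have h1 := mulVec_eq_zero_of_gram ((A (n + 1) x P).map (evalRingHom e))
      (fun b => evalRingHom e (c b)) ?_
    · have h2 := congrFun h1 r
      simpa [Matrix.mulVec, dotProduct, eval_finsetSum] using h2
    · funext b
      have h2 := congrArg (evalRingHom e) (congrFun hc0 b)
      simpa [Matrix.mulVec, dotProduct, Matrix.mul_apply, eval_finsetSum] using h2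
  obtain ⟨s, c', hc', b0, hb0⟩ := exists_primitive c hc
  have hA' : (A (n + 1) x P).mulVec c' = 0 := by
    funext r
    have h1 := congrFun hA r
    have h2 : (A (n + 1) x P).mulVec c r = X ^ s * (A (n + 1) x P).mulVec c' r := by
      simp only [Matrix.mulVec, dotProduct, Finset.mul_sum]
      apply Finset.sum_congr rfl
      intro b _
      rw [hc' b]
      ring
    rw [h2] at h1
    simpa using h1
  have hcond := (cond_iff x P c').2 hA'
  -- reduction
  set φ : Polynomial ℝ →+* ℝ := evalRingHom 0 with hφ
  have hφX : ∀ z : Polynomial ℝ, X ∣ z → φ z = 0 := by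
    rintro _ ⟨d, rfl⟩
    simp [hφ]
  set F : Polynomial (Polynomial (Polynomial ℝ)) := poly c' with hF
  set Fb : Polynomial (Polynomial ℝ) := poly (fun q => φ (c' q)) with hFb
  have hFb0 : Fb ≠ 0 := by
    intro h0
    have h1 := congrFun (poly_eq_zero h0) b0
    apply hb0
    simpa [hφ, ← coeff_zero_eq_eval_zero] using h1
  -- columns
  have hcol : ∀ i, i < m → ∃ b : Polynomial (Polynomial ℝ),
      colp c' (C t) i = (X - C X) ^ (m - i) * b := by
    intro i hi
    have h1 : (X - C (X : Polynomial ℝ)) ^ (m - i) ∣ colp c' (C t) i := by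
      rw [X_sub_C_pow_dvd_iff, ← taylor_apply, X_pow_dvd_iff]
      intro j hj
      rw [taylor_colp]
      have h2 := hcond k
      rw [hk, hPk] at h2
      exact h2 i j (by simp only [Item.slice]; omega)
    exact h1
  choose! b hb using hcol
  have hcol0 : ∀ i, i < m → (taylor (C t) (F.coeff 0)).coeff i
      = (-X) ^ (m - i) * (b i).coeff 0 := by
    intro i hi
    have h1 : (taylor (C t) (F.coeff 0)).coeff i = (colp c' (C t) i).coeff 0 := by
      rw [coeff_colp, tc_w_zero]
    rw [h1, hb i hi, mul_coeff_zero, coeff_zero_eq_eval_zero ((X - C X) ^ (m - i)), eval_pow]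
    simp
  -- the key divisibility
  have key : ∀ q, q ≤ m - g + 1 → C (X ^ q) ∣ F.coeff 0 := by
    intro q
    induction q with
    | zero =>
      intro _
      simp
    | succ q ih =>
      intro hq
      obtain ⟨h1, hh1⟩ := ih (by omega)
      have hz : h1.map φ = 0 := by
        apply trace_zero (fun l => (p l).1) hd (fun l => if l = k then g else (x l).tr) _ (n + 1)
        · intro i hi
          have h2 : (F.coeff 0).coeff i = 0 := low_poly c' i 0 (by omega)
          rw [hh1, coeff_C_mul] at h2
          rw [coeff_map]
          have h3 : h1.coeff i = 0 := by simpa using h2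
          rw [h3, map_zero]
        · have h2 : ∑ l, (if l = k then g else (x l).tr) = ∑ l, (x l).tr + g := by
            rw [Finset.sum_ite, Finset.filter_eq', if_pos (Finset.mem_univ k), Finset.sum_singleton,
              add_comm, Finset.filter_ne']
            congr 1
            rw [← Finset.sum_erase_add _ _ (Finset.mem_univ k), hk]
            simp [Item.tr]
          rw [h2]
          exact htr
        · intro l i hi
          by_cases hl : l = k
          · subst hl
            rw [if_pos rfl] at hi
            have h2 := hcol0 i (by omega)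
            rw [hh1, taylor_mul, taylor_C, coeff_C_mul] at h2
            have h3 : (taylor (C t) h1).coeff i = (-1) ^ (m - i) * X ^ (m - i - q) * (b i).coeff 0 := by
              have h4 : (-X : Polynomial ℝ) ^ (m - i) = X ^ q * ((-1) ^ (m - i) * X ^ (m - i - q)) := by
                rw [neg_pow, mul_left_comm, ← pow_add, Nat.add_sub_cancel' (by omega)]
              rw [h4, mul_assoc] at h2
              exact mul_left_cancel₀ (pow_ne_zero q X_ne_zero) h2
            have h5 : (taylor t (h1.map φ)).coeff i = φ ((taylor (C t) h1).coeff i) := by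
              rw [← coeff_map, taylor_map_ring]
              simp [hφ]
            rw [← ht, h5, h3]
            apply hφX
            have h6 : (X : Polynomial ℝ) ∣ X ^ (m - i - q) := dvd_pow_self _ (by omega)
            exact Dvd.dvd.mul_right (Dvd.dvd.mul_left h6 _) _
          · rw [if_neg hl] at hi
            have h2 := trace_of_cond (hcond l) i hi
            rw [hPl l hl, hh1, taylor_mul, taylor_C, coeff_C_mul] at h2
            have h3 : (taylor (C (p l).1) h1).coeff i = 0 := by
              rcases mul_eq_zero.1 h2 with h4 | h4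
              · exact absurd h4 (pow_ne_zero q X_ne_zero)
              · exact h4
            have h5 : (taylor (p l).1 (h1.map φ)).coeff i = φ ((taylor (C (p l).1) h1).coeff i) := by
              rw [← coeff_map, taylor_map_ring]
              simp [hφ]
            rw [h5, h3, map_zero]
      rw [C_dvd_iff_dvd_coeff]
      intro i
      have h2 : φ (h1.coeff i) = 0 := by
        rw [← coeff_map, hz, coeff_zero]
      have h3 : X ∣ h1.coeff i := by
        rw [X_dvd_iff, coeff_zero_eq_eval_zero]
        exact h2
      rw [hh1, coeff_C_mul, pow_succ]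
      exact mul_dvd_mul_left _ h3
  have hdv := key (m - g + 1) le_rfl
  -- the reduction is divisible by `Y`
  have hF0 : Fb.coeff 0 = 0 := by
    ext i
    have h1 : (Fb.coeff 0).coeff i = φ ((F.coeff 0).coeff i) := by
      rw [hFb, hF, coeff_poly, coeff_poly]
      split_ifs <;> simp
    rw [h1, coeff_zero]
    apply hφX
    rw [C_dvd_iff_dvd_coeff] at hdv
    exact dvd_trans (dvd_pow_self _ (by omega)) (hdv i)
  have hFX := eq_X_mul_divX hF0
  have hlast : Fb.divX = 0 := by
    apply hp
    · intro i j hij
      rw [coeff_divX]
      exact low_poly _ i (j + 1) (by omega)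
    · intro l
      by_cases hl : l = k
      · subst hl
        rw [Function.update_self]
        intro i j hij
        simp only [Item.slice] at hij
        simp only [Item.y]
        have h1 : tc Fb.divX t 0 i j = tc Fb t 0 i (j + 1) := by
          conv_rhs => rw [hFX]
          rw [tc_X_mul_succ, zero_mul, add_zero]
        rw [h1]
        have h2 : tc Fb t 0 i (j + 1) = φ ((colp c' (C t) i).coeff (j + 1)) := by
          rw [coeff_colp, ← tc_poly_map]
          simp [hφ, hFb]
        have him : i < m := by
          unfold sl at hij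
          split_ifs at hij <;> omega
        have hcb : φ ((colp c' (C t) i).coeff (j + 1)) = (X ^ (m - i) * (b i).map φ).coeff (j + 1) := by
          rw [← coeff_map, hb i him]
          simp [hφ]
        rw [h2, hcb, coeff_X_pow_mul']
        by_cases hig : i < g
        · rw [if_neg]
          unfold sl at hij
          split_ifs at hij <;> omega
        · split_ifs with h3
          · have h4 : j + 1 = m - i := by
              unfold sl at hij
              split_ifs at hij <;> omega
            rw [h4, Nat.sub_self, coeff_map]
            apply hφX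
            -- X^(m-g+1) divides X^(m-i) * (b i).coeff 0
            have h5 : X ^ (m - g + 1) ∣ (taylor (C t) (F.coeff 0)).coeff i := by
              obtain ⟨d, hd'⟩ := hdv
              rw [hd', taylor_mul, taylor_C, coeff_C_mul]
              exact Dvd.intro _ rfl
            rw [hcol0 i him, neg_pow] at h5
            have h6 : X ^ (m - i + 1) ∣ X ^ (m - i) * (b i).coeff 0 := by
              have h7 : (X : Polynomial ℝ) ^ (m - i + 1) ∣ X ^ (m - g + 1) := pow_dvd_pow _ (by omega)
              have h8 := dvd_trans h7 h5
              have h9 : IsUnit ((-1 : Polynomial ℝ) ^ (m - i)) := (isUnit_one.neg).pow _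
              rw [mul_assoc] at h8
              exact (h9.dvd_mul_left).1 h8
            rw [pow_succ] at h6
            exact (mul_dvd_mul_iff_left (pow_ne_zero _ X_ne_zero)).1 h6
          · rfl
      · rw [Function.update_of_ne hl]
        apply cond_shift (hw l)
        rw [← hFX]
        intro i j hij
        have h1 := hcond l i j hij
        rw [hPl l hl] at h1
        have h2 : (x l).y (C (p l).2) = C ((x l).y (p l).2) := by
          cases x l <;> simp [Item.y]
        simp only [h2] at h1
        have h3 := tc_poly_map φ c' (C (p l).1) (C ((x l).y (p l).2)) i j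
        rw [h1, map_zero] at h3
        simpa [hφ, hFb] using h3
  apply hFb0
  rw [hFX, hlast, mul_zero]

end Pool.Agent.Helper1.FH
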