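import Pool.Agent.Helper1.FH.Low

/-!
# Lemma I: many general simple points (MP_6ec8e4_ag)
-/

namespace Pool.Agent.Helper1.FH

variable {ι : Type*} [Fintype ι] [DecidableEq ι]

/-- put `g` of the general simple points on the line -/
theorem insert_fillers {M n : ℕ} (hM : 1 ≤ M) : ∀ g : ℕ, ∀ x : ι → Item, Ok M x → g ≤ tot Item.fill x →
    (∀ y : ι → Item, Ok M y → tot Item.tr y = tot Item.tr x + g → tot Item.fill y + g = tot Item.fill x →
      tot Item.sz y = tot Item.sz x → tot Item.fat y = tot Item.fat x → Inj n y) → Inj n x := by
  intro g
  induction g with
  | zero =>
    intro x hx _ h
    exact h x hx rfl rfl rfl rfl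
  | succ g ih =>
    intro x hx hg h
    obtain ⟨k, hk0⟩ := exists_pos (f := Item.fill) (x := x) (by omega)
    have hk := off_of_fill hk0
    apply insert_on hk
    have h2 : tot Item.fill (Function.update x k (.on 1 0)) + 1 = tot Item.fill x := by
      have h := tot_update Item.fill x k (.on 1 0)
      rw [hk] at h
      have h3 : (Item.on 1 0).fill = 0 := rfl
      have h4 : (Item.off 1).fill = 1 := rfl
      omega
    have h3 : tot Item.fat (Function.update x k (.on 1 0)) = tot Item.fat x := by
      have h := tot_update Item.fat x k (.on 1 0)
      rw [hk] at h
      have h3 : (Item.on 1 0).fat = 0 := rfl
      have h4 : (Item.off 1).fat = 0 := rfl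
      omega
    apply ih
    · exact hx.update (by simp only [Item.ok]; omega)
    · omega
    · intro y hy h4 h5 h6 h7
      apply h y hy
      · rw [h4, tr_ins hk]
        ring
      · omega
      · rw [h6, sz_ins hk]
      · rw [h7, h3]

/-- **Lemma I**: many general simple points give injectivity (under the right count). -/
theorem lemI {M : ℕ} (hM : 1 ≤ M) : ∀ n q : ℕ, ∀ x : ι → Item, Ok M x → tot Item.fat x = q → M ≤ n →
    tot Item.tr x ≤ n → T n ≤ tot Item.sz x →
    M * min n (M * M + 2 * M) + (M + 1) ^ 2 ≤ tot Item.fill x → Inj n x := by
  intro n
  induction n with
  | zero => exact fun q x _ _ _ _ _ _ => inj_zero x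
  | succ n ih =>
    intro q
    induction q with
    | zero =>
      intro x hx hq hn htr hsz _
      exact finishing (n + 1) _ x (fun k => by
        have := hx k
        cases hxk : x k with
        | on m g => rw [hxk] at this; simp only [Item.ok] at *; omega
        | off m => rw [hxk] at this; simp only [Item.ok] at *; omega) hq rfl htr hsz
    | succ q ihq =>
      intro x hx hq hn htr hsz hfill
      obtain ⟨k, hk0⟩ := exists_pos (f := Item.fat) (x := x) (by omega)
      obtain ⟨m, hm, hk⟩ := off_of_fat hk0
      have hmM : m ≤ M := by
        have := hx k
        rw [hk] at this
        exact this
      by_cases hdrop : T (n + 1) + T M ≤ tot Item.sz x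
      · -- drop the item
        have h1 := tot_update Item.sz x k (.off 0)
        have h2 := tot_update Item.tr x k (.off 0)
        have h3 := tot_update Item.fat x k (.off 0)
        have h4 := tot_update Item.fill x k (.off 0)
        rw [hk] at h1 h2 h3 h4
        have h5 : (Item.off 0).sz = 0 := rfl
        have h6 : (Item.off m).sz = T m := rfl
        have h7 : (Item.off 0).tr = 0 := rfl
        have h8 : (Item.off m).tr = 0 := rfl
        have h9 : (Item.off 0).fat = 0 := rfl
        have h10 : (Item.off m).fat = 1 := by simp [Item.fat, hm]
        have h11 : (Item.off 0).fill = 0 := rfl
        have h12 : (Item.off m).fill = 0 := by simp only [Item.fill]; split_ifs <;> omega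
        have h13 := T_mono hmM
        have h14 : Inj (n + 1) (Function.update x k (.off 0)) := by
          apply ihq
          · exact hx.update (by simp only [Item.ok]; omega)
          · omega
          · exact hn
          · omega
          · omega
          · omega
        apply h14.mono
        intro l p F hc
        by_cases hl : l = k
        · subst hl
          rw [Function.update_self]
          intro i j hij
          simp [Item.slice] at hij
        · rw [Function.update_of_ne hl]
          exact hc
      · -- now `n + 1 > M`
        have hTm : 3 ≤ T m := by
          have := T_mono hm
          have h2 : T 2 = 3 := rfl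
          omega
        have hszfill : tot Item.fill x + T m ≤ tot Item.sz x := by
          have h1 : tot Item.fill x + T m * 1 ≤ tot Item.sz x := by
            have h2 := tot_update Item.sz x k (.off 0)
            have h4 := tot_update Item.fill x k (.off 0)
            rw [hk] at h2 h4
            have h5 : (Item.off 0).sz = 0 := rfl
            have h6 : (Item.off m).sz = T m := rfl
            have h11 : (Item.off 0).fill = 0 := rfl
            have h12 : (Item.off m).fill = 0 := by simp only [Item.fill]; split_ifs <;> omega
            have h13 : tot Item.fill (Function.update x k (.off 0)) ≤ tot Item.sz (Function.update x k (.off 0)) := by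
              apply tot_le
              intro l
              cases (Function.update x k (.off 0) l) with
              | on m g => simp [Item.fill]
              | off m =>
                simp only [Item.fill, Item.sz]
                split_ifs with h
                · rw [h]; exact le_rfl
                · exact Nat.zero_le _
            omega
          omega
        have hnM : M < n + 1 := by
          by_contra h1
          have h2 : n + 1 = M := by omega
          have h3 := two_T M
          rw [h2] at hdrop
          have h4 : M * (M + 1) ≤ (M + 1) ^ 2 := by nlinarith
          omega
        by_cases hfit : tot Item.tr x + m ≤ n + 1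
        · -- insert it
          apply insert_on hk
          apply ihq
          · exact hx.update (by simp only [Item.ok]; omega)
          · have := fat_ins hk hm
            omega
          · exact hn
          · rw [tr_ins hk]
            exact hfit
          · rw [sz_ins hk]
            exact hsz
          · rw [fill_ins hk hm]
            exact hfill
        · have hT := T_succ n
          -- exact step
          have hstep : ∀ y : ι → Item, Ok M y → tot Item.tr y = n + 1 → tot Item.sz y = tot Item.sz x →
              M * min n (M * M + 2 * M) + (M + 1) ^ 2 ≤ tot Item.fill y → Inj (n + 1) y := by
            intro y hy h1 h2 h3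
            apply horace (h1.symm.le)
            have h4 := tot_tr_sh y
            have h5 := tot_sz_sh hy
            have h6 := act_pos hy h1.symm.le
            refine ih (tot Item.fat (sh y)) (sh y) hy.sh rfl (by omega) (by omega) (by omega) ?_
            rw [tot_fill_sh]
            exact h3
          have hmin : M * min n (M * M + 2 * M) ≤ M * min (n + 1) (M * M + 2 * M) :=
            Nat.mul_le_mul le_rfl (by omega)
          by_cases heq : tot Item.tr x = n + 1
          · exact hstep x hx heq rfl (by omega)
          · have hg : n + 1 - tot Item.tr x < m := by omega
            by_cases hnM2 : n + 1 ≤ M * M + 2 * M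
            · -- use fillers
              rw [min_eq_left hnM2] at hfill
              have h7 : M * (n + 1) = M * n + M := by ring
              apply insert_fillers hM (n + 1 - tot Item.tr x) x hx (by omega)
              intro y hy h1 h2 h3 h4
              apply hstep y hy (by omega) h3
              rw [min_eq_left (by omega : n ≤ M * M + 2 * M)]
              omega
            · -- differential step
              apply diff_horace hk (g := n + 1 - tot Item.tr x) hg.le
              · show n + 1 ≤ tot Item.tr x + (n + 1 - tot Item.tr x)
                omega
              · show Inj n (Function.update (sh x) k (.on m (n + 1 - tot Item.tr x)))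
                have h4 := tr_dif hk hg
                have h5 := sz_dif hk hg
                have h6 := tot_tr_sh x
                have h7 := tot_sz_sh hx
                have h8 := tot_tr_le hx
                have h9 := fill_dif hk (g := n + 1 - tot Item.tr x) hm
                have hact : M < tot Item.act x := by
                  by_contra h10
                  have h11 : M * tot Item.act x ≤ M * M := Nat.mul_le_mul le_rfl (by omega)
                  omega
                refine ih _ _ (hx.sh.update (by simp only [Item.ok]; omega)) rfl (by omega) (by omega) (by omega) ?_
                omega

end Pool.Agent.Helper1.FH
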