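import Pool.Agent.Helper1.FH.Fil

/-!
# The potential argument in high degrees (MP_6ec8e4_ag)
-/

namespace Pool.Agent.Helper1.FH

variable {ι : Type*} [Fintype ι] [DecidableEq ι]

/-- the potential -/
def W (x : ι → Item) : ℕ := 2 * tot Item.fill x + 2 * tot Item.sz x + tot Item.cc x

/-- simple on-items become general simple points -/
def Item.conv (x : Item) : Item := if x.simp = 1 then .off 1 else x

lemma simp_le_one (x : Item) : x.simp ≤ 1 := by
  cases x with
  | on m g => simp only [Item.simp]; split_ifs <;> omega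
  | off m => simp [Item.simp]

lemma simp_eq {M : ℕ} {x : Item} (hx : x.ok M) (h : x.simp = 1) : x = .on 1 0 ∨ x = .on 2 2 := by
  cases x with
  | on m g =>
    simp only [Item.simp] at h
    have h1 : T m - g = 1 := by
      by_contra h2
      simp [h2] at h
    rcases simp_cases hx.2 h1 with ⟨rfl, rfl⟩ | ⟨rfl, rfl⟩
    · left; rfl
    · right; rfl
  | off m => simp [Item.simp] at h

lemma conv_ok {M : ℕ} (hM : 1 ≤ M) {x : Item} (hx : x.ok M) : x.conv.ok M := by
  unfold Item.conv
  split_ifs
  · exact hM
  · exact hx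

lemma conv_all {M : ℕ} {x : Item} (hx : x.ok M) :
    x.conv.tr + x.simp = x.tr ∧ x.conv.fill = x.fill + x.simp ∧ x.conv.sz = x.sz ∧
    x.conv.cc + x.simp = x.cc ∧ x.conv.simp = 0 ∧ x.conv.fat = x.fat := by
  unfold Item.conv
  by_cases h : x.simp = 1
  · rcases simp_eq hx h with rfl | rfl <;>
      simp [Item.simp, Item.tr, Item.fill, Item.sz, Item.cc, Item.fat, T]
  · have h0 : x.simp = 0 := by
      have := simp_le_one x
      omega
    rw [if_neg h, h0]
    simp

section tot

variable {M : ℕ} {x : ι → Item} (hx : Ok M x)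

include hx

omit [DecidableEq ι] in
lemma tot_conv_tr : tot Item.tr (fun k => (x k).conv) + tot Item.simp x = tot Item.tr x := by
  unfold tot
  rw [← Finset.sum_add_distrib]
  exact Finset.sum_congr rfl (fun k _ => (conv_all (hx k)).1)

omit [DecidableEq ι] in
lemma tot_conv_fill : tot Item.fill (fun k => (x k).conv) = tot Item.fill x + tot Item.simp x := by
  unfold tot
  rw [← Finset.sum_add_distrib]
  exact Finset.sum_congr rfl (fun k _ => (conv_all (hx k)).2.1)

omit [DecidableEq ι] in
lemma tot_conv_sz : tot Item.sz (fun k => (x k).conv) = tot Item.sz x :=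
  Finset.sum_congr rfl (fun k _ => (conv_all (hx k)).2.2.1)

omit [DecidableEq ι] in
lemma tot_conv_cc : tot Item.cc (fun k => (x k).conv) + tot Item.simp x = tot Item.cc x := by
  unfold tot
  rw [← Finset.sum_add_distrib]
  exact Finset.sum_congr rfl (fun k _ => (conv_all (hx k)).2.2.2.1)

omit [DecidableEq ι] in
lemma tot_conv_simp : tot Item.simp (fun k => (x k).conv) = 0 :=
  Finset.sum_eq_zero (fun k _ => (conv_all (hx k)).2.2.2.2.1)

omit [DecidableEq ι] in
lemma tot_simp_le : tot Item.simp x ≤ tot Item.act x :=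
  Finset.sum_le_sum (fun k _ => simp_le_act (hx k))

end tot

/-- the V-trick for all simple on-items at once -/
theorem vtrick' {M n : ℕ} {x : ι → Item} (hx : Ok M x)
    (h1 : Inj (n + 1) (fun k => (x k).conv)) (h2 : Inj n (sh x)) : Inj (n + 1) x := by
  apply vtrick (Finset.univ.filter (fun k => (x k).simp = 1)) ?_ ?_ h2
  · intro k hk
    have h3 := (Finset.mem_filter.1 hk).2
    rcases simp_eq (hx k) h3 with h4 | h4
    · exact ⟨1, 0, h4, rfl⟩
    · exact ⟨2, 2, h4, rfl⟩
  · have h3 : (fun k => if k ∈ Finset.univ.filter (fun k => (x k).simp = 1) then Item.off 1 else x k)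
        = fun k => (x k).conv := by
      funext k
      simp [Item.conv]
    rw [h3]
    exact h1

omit [DecidableEq ι] in
lemma W_sh {M : ℕ} {x : ι → Item} (hx : Ok M x) (hs : tot Item.simp x = 0) :
    W x ≤ W (sh x) + 2 * tot Item.tr x := by
  unfold W
  have h1 := tot_cc_sh hx
  have h2 := tot_fill_sh x
  have h3 := tot_sz_sh hx
  omega

/-- the conditions which are propagated in high degrees -/
structure Good (M h n : ℕ) (x : ι → Item) : Prop where
  ok : Ok M x
  tr : tot Item.tr x ≤ n
  sz : T n ≤ tot Item.sz x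
  act : tot Item.act x + tot Item.tr x ≤ n + M + 2
  gap : n + M * tot Item.tr x ≤ M * n + M * (M + 2)
  pot : 4 * (2 * M ^ 2) * h + 3 * (2 * M ^ 2) ^ 2 + 3 * (2 * M ^ 2) * n + 2 * (2 * M ^ 2) * T n
    ≤ (2 * M ^ 2) * W x + n ^ 2

/-- filling and stepping (no simple on-items) -/
theorem fill_step {M h n : ℕ} (hM : 2 ≤ M) (hn : 6 * M ^ 2 ≤ n)
    (IH : ∀ x : ι → Item, Good M h n x → Inj n x) :
    ∀ q : ℕ, ∀ z : ι → Item, Ok M z → tot Item.fat z = q → tot Item.simp z = 0 →
      tot Item.tr z ≤ n + 1 → T (n + 1) ≤ tot Item.sz z →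
      4 * (2 * M ^ 2) * h + 3 * (2 * M ^ 2) ^ 2 + 3 * (2 * M ^ 2) * n + 2 * (2 * M ^ 2) * T (n + 1)
        + 2 * M * tot Item.tr z + 2 * M * M ≤ (2 * M ^ 2) * W z + n ^ 2 + 2 * M * (n + 2) →
      Inj (n + 1) z := by
  have hMn : M ≤ n := by nlinarith
  intro q
  induction q with
  | zero =>
    intro z hz hq _ htr hsz _
    exact finishing (n + 1) _ z (fun k => by
      have := hz k
      cases hxk : z k with
      | on m g => rw [hxk] at this; simp only [Item.ok] at *; omega
      | off m => rw [hxk] at this; simp only [Item.ok] at *; omega) hq rfl htr hsz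
  | succ q ihq =>
    intro z hz hq hs htr hsz hpot
    obtain ⟨k, hk0⟩ := exists_pos (f := Item.fat) (x := z) (by omega)
    obtain ⟨m, hm, hk⟩ := off_of_fat hk0
    have hmM : m ≤ M := by
      have := hz k
      rw [hk] at this
      exact this
    by_cases hfit : tot Item.tr z + m ≤ n + 1
    · apply insert_on hk
      apply ihq
      · exact hz.update (by simp only [Item.ok]; omega)
      · have := fat_ins hk hm
        omega
      · rw [simp_ins hk hm]
        exact hs
      · rw [tr_ins hk]
        exact hfit
      · rw [sz_ins hk]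
        exact hsz
      · have h1 : W (Function.update z k (.on m 0)) = W z + 1 := by
          unfold W
          rw [sz_ins hk, fill_ins hk hm, cc_ins hk hm]
          ring
        rw [h1, tr_ins hk]
        have h2 : 2 * M * m ≤ 2 * M ^ 2 * 1 := by nlinarith
        have h3 : 2 * M * (tot Item.tr z + m) = 2 * M * tot Item.tr z + 2 * M * m := by ring
        have h4 : 2 * M ^ 2 * (W z + 1) = 2 * M ^ 2 * W z + 2 * M ^ 2 * 1 := by ring
        omega
    · have hT := T_succ n
      have hT2 : 2 * (2 * M ^ 2) * T (n + 1) = 2 * (2 * M ^ 2) * T n + 2 * (2 * M ^ 2) * (n + 1) := by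
        rw [hT]; ring
      have htrle := tot_tr_le hz
      have htrsh := tot_tr_sh z
      have hszsh := tot_sz_sh hz
      have hWsh := W_sh hz hs
      by_cases heq : tot Item.tr z = n + 1
      · apply horace heq.symm.le
        show Inj n (sh z)
        apply IH
        have hact := act_pos hz heq.symm.le
        have hactsh := tot_act_sh z
        refine ⟨hz.sh, by omega, by omega, by omega, ?_, ?_⟩
        · have h1 : M * tot Item.tr (sh z) + M * tot Item.act z ≤ M * (n + 1) := by
            rw [← mul_add]
            exact Nat.mul_le_mul le_rfl (by omega)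
          have h2 : M * (n + 1) = M * n + M := by ring
          have h3 : M * (M + 2) = M * M + 2 * M := by ring
          omega
        · have h1 : 2 * M ^ 2 * W z ≤ 2 * M ^ 2 * (W (sh z) + 2 * (n + 1)) :=
            Nat.mul_le_mul le_rfl (by omega)
          have h2 : 2 * M ^ 2 * (W (sh z) + 2 * (n + 1)) = 2 * M ^ 2 * W (sh z) + 2 * (2 * M ^ 2) * (n + 1) := by
            ring
          rw [heq] at hpot
          have h3 : 2 * M * (n + 2) = 2 * M * (n + 1) + 2 * M := by ring
          have h4 : 2 * M ≤ 2 * M * M := by nlinarith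
          omega
      · have hg : n + 1 - tot Item.tr z < m := by omega
        set g := n + 1 - tot Item.tr z with hgdef
        apply diff_horace hk (g := g) hg.le
        · show n + 1 ≤ tot Item.tr z + g
          omega
        · show Inj n (Function.update (sh z) k (.on m g))
          apply IH
          have h4 := tr_dif hk hg
          have h5 := sz_dif hk hg
          have h9 := fill_dif hk (g := g) hm
          have h10 := act_dif hk (g := g)
          have h11 := cc_dif hk (g := g)
          have hbig : M * M + M ≤ tot Item.tr z := by nlinarith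
          have hact : M < tot Item.act z := by
            by_contra h12
            have h13 : M * tot Item.act z ≤ M * M := Nat.mul_le_mul le_rfl (by omega)
            omega
          refine ⟨hz.sh.update (by simp only [Item.ok]; omega), by omega, by omega, by omega, ?_, ?_⟩
          · rw [h4]
            have h1 : M * tot Item.tr (sh z) + M * tot Item.act z ≤ M * (n + 1) := by
              rw [← mul_add]
              exact Nat.mul_le_mul le_rfl (by omega)
            have h2 : M * (n + 1) = M * n + M := by ring
            have h3 : M * (M + 2) = M * M + 2 * M := by ring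
            have h6 : M * (tot Item.tr (sh z) + m) = M * tot Item.tr (sh z) + M * m := by ring
            have h7 : M * m ≤ M * M := Nat.mul_le_mul le_rfl hmM
            omega
          · have hW2 : W z ≤ W (Function.update (sh z) k (.on m g)) + 2 * (n + 1) := by
              unfold W at *
              have := tot_fill_sh z
              omega
            have h1 : 2 * M ^ 2 * W z ≤ 2 * M ^ 2 * (W (Function.update (sh z) k (.on m g)) + 2 * (n + 1)) :=
              Nat.mul_le_mul le_rfl hW2
            have h2 : 2 * M ^ 2 * (W (Function.update (sh z) k (.on m g)) + 2 * (n + 1))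
                = 2 * M ^ 2 * W (Function.update (sh z) k (.on m g)) + 2 * (2 * M ^ 2) * (n + 1) := by
              ring
            have h3 : 2 * M * (n + 2) ≤ 2 * M * tot Item.tr z + 2 * M * M := by
              rw [← mul_add]
              exact Nat.mul_le_mul le_rfl (by omega)
            omega

/-- **High degrees**: with terminal lemmas for slack `h` and excess `h`. -/
theorem high {M h : ℕ} (hM : 2 ≤ M)
    (TI : ∀ n (x : ι → Item), Ok M x → M ≤ n → tot Item.tr x ≤ n → T n ≤ tot Item.sz x →
      h ≤ tot Item.fill x → Inj n x)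
    (TII : ∀ n (x : ι → Item), Ok M x → tot Item.tr x ≤ n → T n + h ≤ tot Item.sz x → Inj n x) :
    ∀ n, 6 * M ^ 2 ≤ n → ∀ x : ι → Item, Good M h n x → Inj n x := by
  intro n hn
  induction n, hn using Nat.le_induction with
  | base =>
    intro x hx
    have h1 := hx.pot
    have h2 := tot_cc_le hx.ok
    have h3 := tot_act_le x
    have h4 := hx.tr
    have hMn : M ≤ 6 * M ^ 2 := by nlinarith
    have h5 : 2 * M ^ 2 * (4 * h + 6 * M ^ 2 + 2 * T (6 * M ^ 2)) ≤ 2 * M ^ 2 * W x := by
      have h6 : (6 * M ^ 2) ^ 2 = 3 * (2 * M ^ 2) * (6 * M ^ 2) := by ring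
      have h7 : 2 * M ^ 2 * (4 * h + 6 * M ^ 2 + 2 * T (6 * M ^ 2))
          = 4 * (2 * M ^ 2) * h + 3 * (2 * M ^ 2) ^ 2 + 2 * (2 * M ^ 2) * T (6 * M ^ 2) := by ring
      omega
    have h6 : 4 * h + 6 * M ^ 2 + 2 * T (6 * M ^ 2) ≤ W x :=
      Nat.le_of_mul_le_mul_left h5 (by positivity)
    unfold W at h6
    by_cases h7 : h ≤ tot Item.fill x
    · exact TI _ x hx.ok hMn hx.tr hx.sz h7
    · exact TII _ x hx.ok hx.tr (by omega)
  | succ n hn ih =>
    intro x hx
    have hMn : M ≤ n := by nlinarith
    have htr := hx.tr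
    have hsz := hx.sz
    have hact := hx.act
    have hgap := hx.gap
    have hpot := hx.pot
    have hT := T_succ n
    have hT2 : 2 * (2 * M ^ 2) * T (n + 1) = 2 * (2 * M ^ 2) * T n + 2 * (2 * M ^ 2) * (n + 1) := by
      rw [hT]; ring
    have hs := tot_simp_le hx.ok
    apply vtrick' hx.ok
    · -- branch (i)
      have c1 := tot_conv_tr hx.ok
      have c2 := tot_conv_fill hx.ok
      have c3 := tot_conv_sz hx.ok
      have c4 := tot_conv_cc hx.ok
      have c5 := tot_conv_simp hx.ok
      apply fill_step hM hn ih _ _ (fun k => conv_ok (by omega) (hx.ok k)) rfl c5 (by omega) (by omega)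
      have hW : W x ≤ W (fun k => (x k).conv) := by
        unfold W
        omega
      have h1 : 2 * M ^ 2 * W x ≤ 2 * M ^ 2 * W (fun k => (x k).conv) := Nat.mul_le_mul le_rfl hW
      have h2 : 2 * M * tot Item.tr (fun k => (x k).conv) ≤ 2 * M * tot Item.tr x :=
        Nat.mul_le_mul le_rfl (by omega)
      have h3 : (n + 1) ^ 2 = n ^ 2 + 2 * n + 1 := by ring
      have h4 : 2 * M * tot Item.tr x = 2 * (M * tot Item.tr x) := by ring
      have h5 : 3 * (2 * M ^ 2) * (n + 1) = 3 * (2 * M ^ 2) * n + 6 * (M * M) := by ring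
      have h6 : 2 * M * (n + 2) = 2 * (M * n) + 4 * M := by ring
      have h7 : M * (n + 1) = M * n + M := by ring
      have h8 : M * (M + 2) = M * M + 2 * M := by ring
      have h9 : 2 * M * M = 2 * (M * M) := by ring
      have h10 : 2 * M ≤ M * M := by nlinarith
      omega
    · -- branch (ii)
      apply ih
      have htrsh := tot_tr_sh x
      have hszsh := tot_sz_sh hx.ok
      have hactsh := tot_act_sh x
      have hccsh := tot_cc_sh hx.ok
      have hfillsh := tot_fill_sh x
      have hactle := tot_act_le x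
      have htrle := tot_tr_le hx.ok
      have hzero : tot Item.act x = 0 → tot Item.tr x = 0 := by
        intro h0
        rw [h0] at htrle
        omega
      have htr' : tot Item.tr (sh x) ≤ n := by
        by_cases h0 : tot Item.act x = 0
        · have := hzero h0
          omega
        · omega
      refine ⟨hx.ok.sh, htr', by omega, ?_, ?_, ?_⟩
      · by_cases h0 : tot Item.act x = 0
        · have := hzero h0
          omega
        · omega
      · by_cases h0 : tot Item.act x = 0
        · have h1 : tot Item.tr (sh x) = 0 := by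
            have := hzero h0
            omega
          rw [h1]
          have h2 : n ≤ M * n := Nat.le_mul_of_pos_left _ (by omega)
          omega
        · have h1 : M * tot Item.tr (sh x) + M ≤ M * tot Item.tr x := by
            have : M * (tot Item.tr (sh x) + 1) ≤ M * tot Item.tr x := Nat.mul_le_mul le_rfl (by omega)
            linarith
          have h2 : M * (n + 1) = M * n + M := by ring
          omega
      · -- potential
        have hW : W x ≤ W (sh x) + (tot Item.tr x + (n + 1) + (M + 2)) := by
          unfold W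
          omega
        have f1 : 2 * M ^ 2 * W x ≤ 2 * M ^ 2 * (W (sh x) + (tot Item.tr x + (n + 1) + (M + 2))) :=
          Nat.mul_le_mul le_rfl hW
        have f2 : 2 * M * ((n + 1) + M * tot Item.tr x) ≤ 2 * M * (M * (n + 1) + M * (M + 2)) :=
          Nat.mul_le_mul le_rfl hgap
        have e1 : 2 * M ^ 2 * (W (sh x) + (tot Item.tr x + (n + 1) + (M + 2)))
            = 2 * M ^ 2 * W (sh x) + 2 * (M ^ 2 * tot Item.tr x) + 2 * M ^ 2 * (n + 1) + 2 * M ^ 3 + 4 * M ^ 2 := by
          ring
        have e2 : 2 * M * ((n + 1) + M * tot Item.tr x) = 2 * (M * (n + 1)) + 2 * (M ^ 2 * tot Item.tr x) := by ring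
        have e3 : 2 * M * (M * (n + 1) + M * (M + 2)) = 2 * M ^ 2 * (n + 1) + 2 * M ^ 3 + 4 * M ^ 2 := by ring
        have e4 : (n + 1) ^ 2 = n ^ 2 + 2 * n + 1 := by ring
        have e5 : 3 * (2 * M ^ 2) * (n + 1) = 3 * (2 * M ^ 2) * n + 6 * M ^ 2 := by ring
        have e6 : 2 * (2 * M ^ 2) * (n + 1) = 2 * M ^ 2 * (n + 1) + 2 * M ^ 2 * (n + 1) := by ring
        have e7 : 12 * M ^ 3 + 2 * (n + 1) ≤ 12 * M ^ 2 + 2 * (M * (n + 1)) := by
          obtain ⟨a, rfl⟩ : ∃ a, M = a + 1 := ⟨M - 1, by omega⟩
          have h1 : 2 * a * (6 * (a + 1) ^ 2) ≤ 2 * a * (n + 1) := Nat.mul_le_mul le_rfl (by omega)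
          have h2 : 12 * (a + 1) ^ 3 = 2 * a * (6 * (a + 1) ^ 2) + 12 * (a + 1) ^ 2 := by ring
          have h3 : 2 * ((a + 1) * (n + 1)) = 2 * a * (n + 1) + 2 * (n + 1) := by ring
          omega
        have e8 : 14 * M ^ 2 ≤ 8 * M ^ 3 := by
          have : M ^ 3 = M * M ^ 2 := by ring
          nlinarith [Nat.zero_le (M ^ 2)]
        omega

end Pool.Agent.Helper1.FH
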