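import Pool.Agent.Helper1.FH.Mat

/-!
# The Horace step along the line `Y = 0` (MP_6ec8e4_ag)
-/

namespace Pool.Agent.Helper1.FH

open Polynomial

lemma sl_zero (m g : ℕ) : sl m g 0 = if g < m then m else m - 1 := by
  unfold sl
  split_ifs <;> omega

lemma sl_shift (m g j : ℕ) : sl (m - 1) (min g (m - 1)) j = sl m g (j + 1) := by
  unfold sl
  split_ifs <;> omega

lemma sl_full (m j : ℕ) : sl m 0 j = m - j := by
  unfold sl
  split_ifs <;> omega

section field

variable {K : Type*} [Field K]

/-- a polynomial of degree `< n` with at least `n` zeros vanishes -/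
lemma trace_zero {ι : Type*} [Fintype ι] (t : ι → K) (ht : ∀ k l, k ≠ l → t k ≠ t l) (r : ι → ℕ)
    (f : Polynomial K) (n : ℕ) (hdeg : ∀ i, n ≤ i → f.coeff i = 0) (hn : n ≤ ∑ k, r k)
    (hf : ∀ k, ∀ i, i < r k → (taylor (t k) f).coeff i = 0) : f = 0 := by
  classical
  by_contra hne
  have hdvd : ∀ k, (X - C (t k)) ^ (r k) ∣ f := by
    intro k
    rw [X_sub_C_pow_dvd_iff, ← taylor_apply, X_pow_dvd_iff]
    exact hf k
  have hprod : (∏ k : ι, (X - C (t k)) ^ (r k)) ∣ f := by
    apply Finset.prod_dvd_of_coprime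
    · intro k _ l _ hkl
      exact (isCoprime_X_sub_C_of_isUnit_sub (IsUnit.mk0 _ (sub_ne_zero.2 (ht k l hkl)))).pow
    · intro k _
      exact hdvd k
  have hdeg2 : (∏ k : ι, (X - C (t k)) ^ (r k)).natDegree = ∑ k, r k := by
    rw [natDegree_prod_of_monic]
    · simp
    · intro k _
      exact (monic_X_sub_C _).pow _
  have h1 := natDegree_le_of_dvd hprod hne
  rw [hdeg2] at h1
  have h2 : f.coeff f.natDegree = 0 := hdeg _ (by omega)
  exact hne (leadingCoeff_eq_zero.1 h2)

/-- dividing by `Y` away from the line -/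
lemma off_div {F : Polynomial (Polynomial K)} {u w : K} (hw : w ≠ 0) {m : ℕ}
    (h : ∀ i j, i < m - j → tc (X * F) u w i j = 0) : ∀ j i, i < m - j → tc F u w i j = 0 := by
  intro j
  induction j with
  | zero =>
    intro i hi
    have h1 := h i 0 hi
    rw [tc_X_mul_zero] at h1
    exact (mul_eq_zero.1 h1).resolve_left hw
  | succ j ih =>
    intro i hi
    have h1 := h i (j + 1) hi
    rw [tc_X_mul_succ, ih i (by omega), zero_add] at h1
    exact (mul_eq_zero.1 h1).resolve_left hw

lemma eq_X_mul_divX {R : Type*} [CommRing R] {F : Polynomial R} (h : F.coeff 0 = 0) :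
    F = X * F.divX := by
  conv_lhs => rw [← X_mul_divX_add F, h, C_0, add_zero]

/-- residual conditions -/
lemma cond_shift {x : Item} {p : K × K} (hp : p.2 ≠ 0) {F : Polynomial (Polynomial K)}
    (h : Cond x p (X * F)) : Cond x.shift p F := by
  cases x with
  | on m g =>
    intro i j hij
    simp only [Item.shift, Item.slice, sl_shift] at hij
    have h1 := h i (j + 1) hij
    simp only [Item.y] at h1
    rw [tc_X_mul_succ, zero_mul, add_zero] at h1
    exact h1
  | off m =>
    intro i j hij
    simp only [Item.shift, Item.slice, Item.y] at hij ⊢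
    exact off_div hp (fun i j h2 => h i j h2) j i hij

lemma trace_of_cond {R : Type*} [CommRing R] {x : Item} {p : R × R} {F : Polynomial (Polynomial R)}
    (h : Cond x p F) :
    ∀ i, i < x.tr → (taylor p.1 (F.coeff 0)).coeff i = 0 := by
  cases x with
  | on m g =>
    intro i hi
    have h1 := h i 0 (by simpa [Item.slice, sl_zero, Item.tr] using hi)
    simp only [Item.y] at h1
    rwa [tc_w_zero] at h1
  | off m =>
    intro i hi
    simp [Item.tr] at hi

end field

variable {ι : Type*} [Fintype ι]

omit [Fintype ι] in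
lemma inj_zero (x : ι → Item) : Inj 0 x := by
  refine ⟨fun _ => 0, fun F hF _ => ?_⟩
  ext j i
  simpa using hF i j (Nat.zero_le _)

/-- Horace step -/
theorem horace {n : ℕ} {x : ι → Item} (htr : n + 1 ≤ ∑ k, (x k).tr)
    (h : Inj n (fun k => (x k).shift)) : Inj (n + 1) x := by
  obtain ⟨p, hp, -, hw, hd⟩ := exists_good h h
  refine ⟨p, fun F hF hc => ?_⟩
  have h0 : F.coeff 0 = 0 := by
    apply trace_zero (fun k => (p k).1) hd (fun k => (x k).tr) _ (n + 1) _ htr
    · intro k
      exact trace_of_cond (hc k)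
    · intro i hi
      exact hF i 0 (by omega)
  have h1 := eq_X_mul_divX h0
  have h2 : F.divX = 0 := by
    apply hp
    · intro i j hij
      rw [coeff_divX]
      exact hF i (j + 1) (by omega)
    · intro k
      apply cond_shift (hw k)
      rw [← h1]
      exact hc k
  rw [h1, h2, mul_zero]

omit [Fintype ι] in
/-- specialisation of an off point to the line -/
theorem insert_on [DecidableEq ι] {n : ℕ} {x : ι → Item} {k : ι} {m : ℕ} (hk : x k = .off m)
    (h : Inj n (Function.update x k (.on m 0))) : Inj n x := by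
  obtain ⟨p, hp⟩ := h
  refine ⟨Function.update p k ((p k).1, 0), fun F hF hc => hp F hF (fun l => ?_)⟩
  by_cases hl : l = k
  · subst hl
    have h1 := hc l
    rw [hk, Function.update_self] at h1
    rw [Function.update_self]
    intro i j hij
    simp only [Item.slice, sl_full] at hij
    exact h1 i j hij
  · have h1 := hc l
    rw [Function.update_of_ne hl] at h1
    rw [Function.update_of_ne hl]
    exact h1

omit [Fintype ι] in
/-- more conditions -/
theorem Inj.mono {n : ℕ} {x y : ι → Item} (h : Inj n y)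
    (hxy : ∀ k (p : ℝ × ℝ) F, Cond (x k) p F → Cond (y k) p F) : Inj n x := by
  obtain ⟨p, hp⟩ := h
  exact ⟨p, fun F hF hc => hp F hF (fun k => hxy k _ _ (hc k))⟩

end Pool.Agent.Helper1.FH
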