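import Pool.Agent.Helper1.FH.Sums

/-!
# Lemma II (excess), the finishing lemma and Lemma I (fillers) (MP_6ec8e4_ag)
-/

namespace Pool.Agent.Helper1.FH

variable {ι : Type*} [Fintype ι] [DecidableEq ι]

section upd

variable {x : ι → Item} {k : ι} {m : ℕ} (hk : x k = .off m)

include hk

lemma tr_ins : tot Item.tr (Function.update x k (.on m 0)) = tot Item.tr x + m := by
  have h := tot_update Item.tr x k (.on m 0)
  rw [hk] at h
  have h1 : (Item.on m 0).tr = m := by simp only [Item.tr]; split_ifs <;> omega
  have h2 : (Item.off m).tr = 0 := rfl
  omega

lemma sz_ins : tot Item.sz (Function.update x k (.on m 0)) = tot Item.sz x := by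
  have h := tot_update Item.sz x k (.on m 0)
  rw [hk] at h
  have h1 : (Item.on m 0).sz = T m := by simp [Item.sz]
  have h2 : (Item.off m).sz = T m := rfl
  omega

lemma offp_ins (hm : 1 ≤ m) : tot Item.offp (Function.update x k (.on m 0)) + 1 = tot Item.offp x := by
  have h := tot_update Item.offp x k (.on m 0)
  rw [hk] at h
  have h1 : (Item.on m 0).offp = 0 := rfl
  have h2 : (Item.off m).offp = 1 := by simp [Item.offp, hm]
  omega

lemma fat_ins (hm : 2 ≤ m) : tot Item.fat (Function.update x k (.on m 0)) + 1 = tot Item.fat x := by
  have h := tot_update Item.fat x k (.on m 0)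
  rw [hk] at h
  have h1 : (Item.on m 0).fat = 0 := rfl
  have h2 : (Item.off m).fat = 1 := by simp [Item.fat, hm]
  omega

lemma fill_ins (hm : 2 ≤ m) : tot Item.fill (Function.update x k (.on m 0)) = tot Item.fill x := by
  have h := tot_update Item.fill x k (.on m 0)
  rw [hk] at h
  have h1 : (Item.on m 0).fill = 0 := rfl
  have h2 : (Item.off m).fill = 0 := by simp only [Item.fill]; split_ifs <;> omega
  omega

lemma act_ins (hm : 1 ≤ m) : tot Item.act (Function.update x k (.on m 0)) = tot Item.act x + 1 := by
  have h := tot_update Item.act x k (.on m 0)
  rw [hk] at h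
  have h1 : (Item.on m 0).act = 1 := by
    simp only [Item.act, Item.tr]
    split_ifs <;> omega
  have h2 : (Item.off m).act = 0 := rfl
  omega

lemma cc_ins (hm : 2 ≤ m) : tot Item.cc (Function.update x k (.on m 0)) = tot Item.cc x + 1 := by
  have h := tot_update Item.cc x k (.on m 0)
  rw [hk] at h
  have h1 : (Item.on m 0).cc = 1 := by
    have := le_T m
    simp only [Item.cc]
    rw [if_pos]
    constructor <;> omega
  have h2 : (Item.off m).cc = 0 := rfl
  omega

lemma simp_ins (hm : 2 ≤ m) : tot Item.simp (Function.update x k (.on m 0)) = tot Item.simp x := by
  have h := tot_update Item.simp x k (.on m 0)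
  rw [hk] at h
  have h1 : (Item.on m 0).simp = 0 := by
    have := le_T m
    simp only [Item.simp]
    rw [if_neg]
    omega
  have h2 : (Item.off m).simp = 0 := rfl
  omega

lemma tr_dif {g : ℕ} (hg : g < m) :
    tot Item.tr (Function.update (sh x) k (.on m g)) = tot Item.tr (sh x) + m := by
  have h := tot_update Item.tr (sh x) k (.on m g)
  have hk' : sh x k = .off m := by simp [sh, hk, Item.shift]
  rw [hk'] at h
  have h1 : (Item.on m g).tr = m := by simp only [Item.tr]; rw [if_pos hg]
  have h2 : (Item.off m).tr = 0 := rfl
  omega

lemma sz_dif {g : ℕ} (hg : g < m) :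
    tot Item.sz (Function.update (sh x) k (.on m g)) + g = tot Item.sz (sh x) := by
  have h := tot_update Item.sz (sh x) k (.on m g)
  have hk' : sh x k = .off m := by simp [sh, hk, Item.shift]
  rw [hk'] at h
  have h1 : (Item.on m g).sz = T m - g := rfl
  have h2 : (Item.off m).sz = T m := rfl
  have h3 := le_T m
  omega

lemma fill_dif {g : ℕ} (hm : 2 ≤ m) :
    tot Item.fill (Function.update (sh x) k (.on m g)) = tot Item.fill x := by
  have h := tot_update Item.fill (sh x) k (.on m g)
  have hk' : sh x k = .off m := by simp [sh, hk, Item.shift]
  rw [hk'] at h
  have h1 : (Item.on m g).fill = 0 := rfl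
  have h2 : (Item.off m).fill = 0 := by simp only [Item.fill]; split_ifs <;> omega
  have h3 := tot_fill_sh x
  omega

lemma act_dif {g : ℕ} :
    tot Item.act (Function.update (sh x) k (.on m g)) ≤ tot Item.act x + 1 := by
  have h := tot_update Item.act (sh x) k (.on m g)
  have h1 : (Item.on m g).act ≤ 1 := by
    unfold Item.act
    split_ifs <;> omega
  have h3 := tot_act_sh x
  omega

lemma cc_dif {g : ℕ} :
    tot Item.cc (sh x) ≤ tot Item.cc (Function.update (sh x) k (.on m g)) := by
  have h := tot_update Item.cc (sh x) k (.on m g)
  have hk' : sh x k = .off m := by simp [sh, hk, Item.shift]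
  rw [hk'] at h
  have h2 : (Item.off m).cc = 0 := rfl
  omega

end upd

lemma act_pos {M : ℕ} {x : ι → Item} (hx : Ok M x) {n : ℕ} (h : n + 1 ≤ tot Item.tr x) :
    1 ≤ tot Item.act x := by
  have h1 := tot_tr_le hx
  by_contra h2
  have h3 : tot Item.act x = 0 := by omega
  rw [h3] at h1
  omega

lemma off_of_offp {x : Item} (h : 0 < x.offp) : ∃ m, 1 ≤ m ∧ x = .off m := by
  cases x with
  | on m g => simp [Item.offp] at h
  | off m =>
    refine ⟨m, ?_, rfl⟩
    by_contra h1
    simp [Item.offp, show ¬ 1 ≤ m from h1] at h

lemma off_of_fat {x : Item} (h : 0 < x.fat) : ∃ m, 2 ≤ m ∧ x = .off m := by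
  cases x with
  | on m g => simp [Item.fat] at h
  | off m =>
    refine ⟨m, ?_, rfl⟩
    by_contra h1
    simp [Item.fat, show ¬ 2 ≤ m from h1] at h

lemma off_of_fill {x : Item} (h : 0 < x.fill) : x = .off 1 := by
  cases x with
  | on m g => simp [Item.fill] at h
  | off m =>
    by_contra h1
    have h2 : m ≠ 1 := fun h3 => h1 (by rw [h3])
    simp [Item.fill, h2] at h

/-- **Lemma II**: a large excess gives injectivity. -/
theorem lemII {M : ℕ} (hM : 1 ≤ M) : ∀ n q : ℕ, ∀ x : ι → Item, Ok M x → tot Item.offp x = q →
    (tot Item.tr x ≤ n ∨ (n ≤ M * M + 2 * M ∧ tot Item.tr x ≤ n + M)) →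
    T n + M * min n (M * M + 2 * M) + (M + 1) ^ 2 ≤ tot Item.sz x → Inj n x := by
  intro n
  induction n with
  | zero => exact fun q x _ _ _ _ => inj_zero x
  | succ n ih =>
    intro q
    induction q with
    | zero =>
      intro x hx hq htr hsz
      -- no off items: impossible unless the trace is large
      by_cases h1 : n + 1 ≤ tot Item.tr x
      · apply horace h1
        have hact := act_pos hx h1
        have h2 := tot_tr_sh x
        have h3 := tot_sz_sh hx
        have h4 := T_succ n
        refine ih (tot Item.offp (sh x)) (sh x) hx.sh rfl ?_ ?_
        · rcases htr with h5 | ⟨h5, h6⟩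
          · left; omega
          · right; omega
        · rcases htr with h5 | ⟨h5, h6⟩
          · have h6 : M * min n (M * M + 2 * M) ≤ M * min (n + 1) (M * M + 2 * M) :=
              Nat.mul_le_mul le_rfl (by omega)
            omega
          · rw [min_eq_left h5] at hsz
            rw [min_eq_left (by omega : n ≤ M * M + 2 * M)]
            have h7 : M * (n + 1) = M * n + M := by ring
            omega
      · exfalso
        have h2 := tot_sz_le hx
        have h3 := two_T (n + 1)
        rw [hq] at h2
        have h4 : (M + 1) * tot Item.tr x ≤ (M + 1) * n := Nat.mul_le_mul le_rfl (by omega)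
        have h5 : 2 * T (n + 1) + 2 * (M + 1) ^ 2 ≤ (M + 1) * n := by
          have := Nat.zero_le (M * min (n + 1) (M * M + 2 * M))
          omega
        rw [h3] at h5
        nlinarith [sq_nonneg ((n : ℤ) - (M : ℤ))]
    | succ q ihq =>
      intro x hx hq htr hsz
      by_cases h1 : n + 1 ≤ tot Item.tr x
      · apply horace h1
        have hact := act_pos hx h1
        have h2 := tot_tr_sh x
        have h3 := tot_sz_sh hx
        have h4 := T_succ n
        refine ih (tot Item.offp (sh x)) (sh x) hx.sh rfl ?_ ?_
        · rcases htr with h5 | ⟨h5, h6⟩
          · left; omega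
          · right; omega
        · rcases htr with h5 | ⟨h5, h6⟩
          · have h6 : M * min n (M * M + 2 * M) ≤ M * min (n + 1) (M * M + 2 * M) :=
              Nat.mul_le_mul le_rfl (by omega)
            omega
          · rw [min_eq_left h5] at hsz
            rw [min_eq_left (by omega : n ≤ M * M + 2 * M)]
            have h7 : M * (n + 1) = M * n + M := by ring
            omega
      · obtain ⟨k, hk0⟩ := exists_pos (f := Item.offp) (x := x) (by omega)
        obtain ⟨m, hm, hk⟩ := off_of_offp hk0
        have hmM : m ≤ M := by
          have := hx k
          rw [hk] at this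
          exact this
        have hins : (tot Item.tr x + m ≤ n + 1 ∨ (n + 1 ≤ M * M + 2 * M ∧ tot Item.tr x + m ≤ n + 1 + M)) →
            Inj (n + 1) x := by
          intro h2
          apply insert_on hk
          apply ihq
          · exact hx.update (by simp only [Item.ok]; omega)
          · have := offp_ins hk hm
            omega
          · rw [tr_ins hk]
            exact h2
          · rw [sz_ins hk]
            exact hsz
        by_cases h2 : n + 1 ≤ M * M + 2 * M
        · exact hins (Or.inr ⟨h2, by omega⟩)
        · by_cases h3 : tot Item.tr x + m ≤ n + 1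
          · exact hins (Or.inl h3)
          · -- differential step
            have hg : n + 1 - tot Item.tr x < m := by omega
            apply diff_horace hk (g := n + 1 - tot Item.tr x) hg.le
            · show n + 1 ≤ tot Item.tr x + (n + 1 - tot Item.tr x)
              omega
            · show Inj n (Function.update (sh x) k (.on m (n + 1 - tot Item.tr x)))
              have h4 := tr_dif hk hg
              have h5 := sz_dif hk hg
              have h6 := tot_tr_sh x
              have h7 := tot_sz_sh hx
              have h8 := tot_tr_le hx
              have h9 := T_succ n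
              have hact : M < tot Item.act x := by
                by_contra h10
                have h11 : M * tot Item.act x ≤ M * M := Nat.mul_le_mul le_rfl (by omega)
                omega
              refine ih _ _ (hx.sh.update (by simp only [Item.ok]; omega)) rfl ?_ ?_
              · left
                omega
              · rw [min_eq_right (by omega : M * M + 2 * M ≤ n + 1)] at hsz
                rw [min_eq_right (by omega : M * M + 2 * M ≤ n)]
                omega

/-- **Finishing lemma**: only general simple points off the line. -/
theorem finishing : ∀ n q : ℕ, ∀ x : ι → Item, Ok n x → tot Item.fat x = 0 → tot Item.fill x = q →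
    tot Item.tr x ≤ n → T n ≤ tot Item.sz x → Inj n x := by
  intro n
  induction n with
  | zero => exact fun q x _ _ _ _ _ => inj_zero x
  | succ n ih =>
    intro q
    induction q with
    | zero =>
      intro x hx hfat hq htr hsz
      have hoff := tot_offp_eq x
      have h2 := tot_sz_le hx
      have h3 := two_T (n + 1)
      rw [hoff, hfat, hq] at h2
      have h1 : n + 1 ≤ tot Item.tr x := by
        by_contra h4
        have h5 : (n + 1 + 1) * tot Item.tr x ≤ (n + 1 + 1) * n := Nat.mul_le_mul le_rfl (by omega)
        nlinarith
      apply horace h1
      have hact := act_pos hx h1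
      have h4 := tot_tr_sh x
      have h5 := tot_sz_sh hx
      have h6 := T_succ n
      refine ih (tot Item.fill (sh x)) (sh x) ?_ ?_ rfl ?_ ?_
      · intro k
        have h7 := hx k
        unfold sh
        cases hxk : x k with
        | on m g =>
          rw [hxk] at h7
          simp only [Item.ok, Item.shift] at *
          omega
        | off m =>
          simp only [Item.ok, Item.shift]
          have h8 : (x k).fat ≤ tot Item.fat x := Finset.single_le_sum (f := fun k => (x k).fat) (fun _ _ => Nat.zero_le _) (Finset.mem_univ k)
          have h9 : (x k).fill ≤ tot Item.fill x := Finset.single_le_sum (f := fun k => (x k).fill) (fun _ _ => Nat.zero_le _) (Finset.mem_univ k)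
          rw [hxk, hfat] at h8
          rw [hxk, hq] at h9
          simp only [Item.fat, Item.fill] at h8 h9
          by_contra h10
          have h11 : 1 ≤ m := by omega
          rcases Nat.lt_or_ge m 2 with h12 | h12
          · have : m = 1 := by omega
            simp [this] at h9
          · simp [h12] at h8
      · rw [tot_fat_sh, hfat]
      · omega
      · omega
    | succ q ihq =>
      intro x hx hfat hq htr hsz
      by_cases h1 : n + 1 ≤ tot Item.tr x
      · apply horace h1
        have hact := act_pos hx h1
        have h4 := tot_tr_sh x
        have h5 := tot_sz_sh hx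
        have h6 := T_succ n
        by_cases hn : n = 0
        · subst hn
          exact inj_zero _
        · refine ih (tot Item.fill (sh x)) (sh x) ?_ ?_ rfl ?_ ?_
          · intro k
            have h7 := hx k
            unfold sh
            cases hxk : x k with
            | on m g =>
              rw [hxk] at h7
              simp only [Item.ok, Item.shift] at *
              omega
            | off m =>
              simp only [Item.ok, Item.shift]
              have h8 : (x k).fat ≤ tot Item.fat x := Finset.single_le_sum (f := fun k => (x k).fat) (fun _ _ => Nat.zero_le _) (Finset.mem_univ k)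
              rw [hxk, hfat] at h8
              simp only [Item.fat] at h8
              by_contra h10
              simp [show 2 ≤ m by omega] at h8
          · rw [tot_fat_sh, hfat]
          · omega
          · omega
      · obtain ⟨k, hk0⟩ := exists_pos (f := Item.fill) (x := x) (by omega)
        have hk := off_of_fill hk0
        apply insert_on hk
        have h2 : tot Item.fill (Function.update x k (.on 1 0)) + 1 = tot Item.fill x := by
          have h := tot_update Item.fill x k (.on 1 0)
          rw [hk] at h
          have h3 : (Item.on 1 0).fill = 0 := rfl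
          have h4 : (Item.off 1).fill = 1 := rfl
          omega
        have h3 : tot Item.fat (Function.update x k (.on 1 0)) = tot Item.fat x := by
          have h := tot_update Item.fat x k (.on 1 0)
          rw [hk] at h
          have h3 : (Item.on 1 0).fat = 0 := rfl
          have h4 : (Item.off 1).fat = 0 := rfl
          omega
        apply ihq
        · exact hx.update (by simp only [Item.ok]; omega)
        · omega
        · omega
        · rw [tr_ins hk]
          omega
        · rw [sz_ins hk]
          exact hsz

end Pool.Agent.Helper1.FH
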