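import Pool.Agent.Helper1.FH.High

/-!
# Injectivity for general fat points (MP_6ec8e4_ag)
-/

namespace Pool.Agent.Helper1.FH

variable {ι : Type*} [Fintype ι] [DecidableEq ι]

omit [DecidableEq ι] in
lemma tot_eq_zero {f : Item → ℕ} {x : ι → Item} (h : ∀ k, f (x k) = 0) : tot f x = 0 :=
  Finset.sum_eq_zero (fun k _ => h k)

/-- all items off the line, multiplicities at most `M` -/
def AllOff (M : ℕ) (x : ι → Item) : Prop := ∀ k, ∃ m, m ≤ M ∧ x k = .off m

omit [Fintype ι] [DecidableEq ι] in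
lemma AllOff.ok {M : ℕ} {x : ι → Item} (h : AllOff M x) : Ok M x := by
  intro k
  obtain ⟨m, hm, hk⟩ := h k
  rw [hk]
  exact hm

omit [DecidableEq ι] in
lemma AllOff.tr {M : ℕ} {x : ι → Item} (h : AllOff M x) : tot Item.tr x = 0 := by
  apply tot_eq_zero
  intro k
  obtain ⟨m, hm, hk⟩ := h k
  rw [hk]
  rfl

omit [DecidableEq ι] in
lemma AllOff.act {M : ℕ} {x : ι → Item} (h : AllOff M x) : tot Item.act x = 0 := by
  apply tot_eq_zero
  intro k
  obtain ⟨m, hm, hk⟩ := h k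
  rw [hk]
  rfl

/-- high degrees, abstract form -/
theorem inj_of_pot {M h n : ℕ} (hM : 2 ≤ M)
    (TI : ∀ n (x : ι → Item), Ok M x → M ≤ n → tot Item.tr x ≤ n → T n ≤ tot Item.sz x →
      h ≤ tot Item.fill x → Inj n x)
    (TII : ∀ n (x : ι → Item), Ok M x → tot Item.tr x ≤ n → T n + h ≤ tot Item.sz x → Inj n x)
    (hn : 8 * M ^ 2 * h + 12 * M ^ 4 + 6 * M ^ 2 * n ≤ n ^ 2) (hn2 : 6 * M ^ 2 ≤ n)
    {x : ι → Item} (hx : AllOff M x) (hsz : T n ≤ tot Item.sz x) : Inj n x := by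
  apply high hM TI TII n hn2
  refine ⟨hx.ok, by rw [hx.tr]; omega, hsz, by rw [hx.tr, hx.act]; omega, ?_, ?_⟩
  · rw [hx.tr]
    have h2 : n ≤ M * n := Nat.le_mul_of_pos_left _ (by omega)
    omega
  · have h1 : 2 * T n ≤ W x := by
      unfold W
      omega
    have h2 : 2 * M ^ 2 * (2 * T n) ≤ 2 * M ^ 2 * W x := Nat.mul_le_mul le_rfl h1
    have h3 : 2 * M ^ 2 * (2 * T n) = 2 * (2 * M ^ 2) * T n := by ring
    have h4 : 4 * (2 * M ^ 2) * h = 8 * M ^ 2 * h := by ring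
    have h5 : 3 * (2 * M ^ 2) ^ 2 = 12 * M ^ 4 := by ring
    have h6 : 3 * (2 * M ^ 2) * n = 6 * M ^ 2 * n := by ring
    omega

/-- the main injectivity theorem -/
theorem main_inj {M n : ℕ} (hn : 16 * (M + 1) ^ 5 ≤ n ^ 2) {x : ι → Item} (hx : AllOff M x)
    (hsz : T n ≤ tot Item.sz x) : Inj n x := by
  rcases Nat.lt_or_ge M 2 with hM | hM
  · have h1 : 1 ≤ n := by
      by_contra h
      have h2 : n = 0 := by omega
      rw [h2] at hn
      have : 0 < (M + 1) ^ 5 := by positivity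
      omega
    apply finishing n _ x _ _ rfl (by rw [hx.tr]; omega) hsz
    · intro k
      obtain ⟨m, hm, hk⟩ := hx k
      rw [hk]
      simp only [Item.ok]
      omega
    · apply tot_eq_zero
      intro k
      obtain ⟨m, hm, hk⟩ := hx k
      rw [hk]
      simp only [Item.fat]
      split_ifs <;> omega
  · have hkey : 8 * M ^ 2 * (M * (M * M + 2 * M) + (M + 1) ^ 2) + 48 * M ^ 4 ≤ 12 * (M + 1) ^ 5 := by
      have h1 : 8 * M ^ 2 * (M * (M * M + 2 * M) + (M + 1) ^ 2) + 48 * M ^ 4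
          = 8 * M ^ 5 + 72 * M ^ 4 + 16 * M ^ 3 + 8 * M ^ 2 := by ring
      have h2 : 12 * (M + 1) ^ 5 = 12 * M ^ 5 + 60 * M ^ 4 + 120 * M ^ 3 + 120 * M ^ 2 + 60 * M + 12 := by ring
      have h3 : 12 * M ^ 4 ≤ 4 * M ^ 5 + 104 * M ^ 3 := by
        have h4 : 12 * M ^ 4 = M ^ 3 * (12 * M) := by ring
        have h5 : 4 * M ^ 5 + 104 * M ^ 3 = M ^ 3 * (4 * M ^ 2 + 104) := by ring
        rw [h4, h5]
        apply Nat.mul_le_mul le_rfl
        nlinarith [sq_nonneg ((M : ℤ) - 2)]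
      omega
    have hn4 : 24 * M ^ 2 * n ≤ n ^ 2 + 144 * M ^ 4 := by
      have h1 : (0 : ℤ) ≤ ((n : ℤ) - 12 * (M : ℤ) ^ 2) ^ 2 := sq_nonneg _
      have h2 : (24 * (M : ℤ) ^ 2 * n) ≤ (n : ℤ) ^ 2 + 144 * (M : ℤ) ^ 4 := by nlinarith
      exact_mod_cast h2
    apply inj_of_pot hM (h := M * (M * M + 2 * M) + (M + 1) ^ 2) ?_ ?_ ?_ ?_ hx hsz
    · intro n x hok hMn htr hsz hfill
      apply lemI (by omega) n _ x hok rfl hMn htr hsz
      have : M * min n (M * M + 2 * M) ≤ M * (M * M + 2 * M) := Nat.mul_le_mul le_rfl (by omega)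
      omega
    · intro n x hok htr hsz
      apply lemII (by omega) n _ x hok rfl (Or.inl htr)
      have : M * min n (M * M + 2 * M) ≤ M * (M * M + 2 * M) := Nat.mul_le_mul le_rfl (by omega)
      omega
    · have h1 : 6 * M ^ 2 * n * 4 = 24 * M ^ 2 * n := by ring
      omega
    · by_contra h
      have h1 : n + 1 ≤ 6 * M ^ 2 := by omega
      have h2 : n ^ 2 ≤ (6 * M ^ 2) ^ 2 := Nat.pow_le_pow_left (by omega) 2
      have h3 : (6 * M ^ 2) ^ 2 = 36 * M ^ 4 := by ring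
      have h4 : 16 * (M + 1) ^ 5 = 16 * M ^ 5 + 80 * M ^ 4 + 160 * M ^ 3 + 160 * M ^ 2 + 80 * M + 16 := by ring
      omega

/-- small excess bound -/
def Bd (M n : ℕ) : ℕ := M * min n (M * M + 2 * M) + (M + 1) ^ 2

/-- excess gives injectivity in every degree -/
theorem excess_inj {M n : ℕ} (hM : 1 ≤ M) {x : ι → Item} (hx : AllOff M x)
    (hsz : T n + Bd M n ≤ tot Item.sz x) : Inj n x := by
  apply lemII hM n _ x hx.ok rfl (Or.inl (by rw [hx.tr]; omega))
  unfold Bd at hsz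
  omega

/-- enough general simple points give injectivity in every degree -/
theorem slack_inj {M n : ℕ} (hM : 1 ≤ M) {x : ι → Item} (hx : AllOff M x)
    (hsz : T n = tot Item.sz x) (hfill : Bd M n ≤ tot Item.fill x) : Inj n x := by
  have h1 : tot Item.fill x ≤ tot Item.sz x := by
    apply tot_le
    intro k
    cases x k with
    | on m g => simp [Item.fill]
    | off m =>
      simp only [Item.fill, Item.sz]
      split_ifs with h
      · rw [h]; exact le_rfl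
      · exact Nat.zero_le _
  unfold Bd at hfill
  apply lemI hM n _ x hx.ok rfl ?_ (by rw [hx.tr]; omega) hsz.le hfill
  by_contra h
  have h2 := T_mono (show n ≤ M by omega)
  have h3 := two_T M
  have h4 : (M + 1) ^ 2 = M * (M + 1) + (M + 1) := by ring
  omega

end Pool.Agent.Helper1.FH
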