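import Pool.Agent.Helper1.FH.Defs

/-!
# The interpolation matrix, semicontinuity (MP_6ec8e4_ag)
-/

namespace Pool.Agent.Helper1.FH

open Polynomial

/-- index set of the monomials `X^a Y^b` with `a + b < n` -/
abbrev B (n : ℕ) : Type := (a : Fin n) × Fin (n - a)

section ring

variable {R : Type*} [CommRing R]

/-- polynomial with given coefficients -/
noncomputable def poly {n : ℕ} (c : B n → R) : Polynomial (Polynomial R) :=
  ∑ q : B n, monomial (q.2 : ℕ) (monomial (q.1 : ℕ) (c q))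

lemma coeff_poly {n : ℕ} (c : B n → R) (a b : ℕ) :
    ((poly c).coeff b).coeff a
      = if h : a + b < n then c ⟨⟨a, by omega⟩, ⟨b, by simp; omega⟩⟩ else 0 := by
  classical
  unfold poly
  simp only [finsetSum_coeff, coeff_monomial]
  have h1 : ∀ q : B n, ((if (q.2 : ℕ) = b then monomial (q.1 : ℕ) (c q) else 0 : Polynomial R)).coeff a
      = if (q.2 : ℕ) = b ∧ (q.1 : ℕ) = a then c q else 0 := by
    intro q
    split_ifs with h1 h2 h2
    · simp [h2.2]
    · rw [coeff_monomial, if_neg (fun h => h2 ⟨h1, h⟩)]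
    · exact absurd h2.1 h1
    · simp
  rw [Finset.sum_congr rfl (fun q _ => h1 q)]
  split_ifs with h
  · rw [Finset.sum_eq_single_of_mem (⟨⟨a, by omega⟩, ⟨b, by simp; omega⟩⟩ : B n) (Finset.mem_univ _)]
    · simp
    · intro q _ hq
      rw [if_neg]
      rintro ⟨h2, h3⟩
      apply hq
      obtain ⟨⟨q1, hq1⟩, ⟨q2, hq2⟩⟩ := q
      simp only at h2 h3
      subst h2 h3
      rfl
  · apply Finset.sum_eq_zero
    intro q _
    rw [if_neg]
    rintro ⟨h2, h3⟩
    have := q.2.2
    omega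

lemma low_poly {n : ℕ} (c : B n → R) : Low n (poly c) := by
  intro i j hij
  rw [coeff_poly, dif_neg (by omega)]

lemma poly_eq_zero {n : ℕ} {c : B n → R} (h : poly c = 0) : c = 0 := by
  funext q
  have h1 := coeff_poly c q.1 q.2
  rw [h] at h1
  have h2 : (q.1 : ℕ) + q.2 < n := by
    have := q.2.2
    omega
  rw [dif_pos h2] at h1
  simpa using h1.symm

lemma exists_poly {n : ℕ} {F : Polynomial (Polynomial R)} (h : Low n F) : ∃ c : B n → R, poly c = F := by
  refine ⟨fun q => (F.coeff q.2).coeff q.1, ?_⟩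
  ext b a
  rw [coeff_poly]
  split_ifs with h1
  · rfl
  · exact (h a b (by omega)).symm

lemma tc_poly {n : ℕ} (c : B n → R) (u w : R) (i j : ℕ) :
    tc (poly c) u w i j = ∑ q : B n,
      c q * ((((q.1 : ℕ)).choose i : R) * (((q.2 : ℕ)).choose j : R) * u ^ ((q.1 : ℕ) - i)
        * w ^ ((q.2 : ℕ) - j)) := by
  unfold poly
  rw [tc_sum]
  exact Finset.sum_congr rfl (fun q _ => tc_monomial _ _ _ _ _ _ _)

variable {ι : Type*}

/-- the interpolation matrix -/
def A (n : ℕ) (x : ι → Item) (p : ι → R × R) : Matrix (ι × Fin n × Fin n) (B n) R :=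
  fun r q =>
    if (r.2.1 : ℕ) < (x r.1).slice r.2.2 then
      (((q.1 : ℕ)).choose r.2.1 : R) * (((q.2 : ℕ)).choose r.2.2 : R)
        * (p r.1).1 ^ ((q.1 : ℕ) - r.2.1) * ((x r.1).y (p r.1).2) ^ ((q.2 : ℕ) - r.2.2)
    else 0

lemma mulVec_A (n : ℕ) (x : ι → Item) (p : ι → R × R) (c : B n → R) (k : ι) (i j : Fin n) :
    (A n x p).mulVec c (k, i, j)
      = if (i : ℕ) < (x k).slice j then tc (poly c) (p k).1 ((x k).y (p k).2) i j else 0 := by
  unfold Matrix.mulVec dotProduct A
  split_ifs with h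
  · rw [tc_poly]
    apply Finset.sum_congr rfl
    intro q _
    simp only [h, if_true]
    ring
  · simp [h]

lemma cond_iff {n : ℕ} (x : ι → Item) (p : ι → R × R) (c : B n → R) :
    (∀ k, Cond (x k) (p k) (poly c)) ↔ (A n x p).mulVec c = 0 := by
  constructor
  · intro h
    funext ⟨k, i, j⟩
    rw [mulVec_A]
    split_ifs with h1
    · exact h k i j h1
    · rfl
  · intro h k i j hij
    by_cases h1 : i < n ∧ j < n
    · have h2 := congrFun h (k, ⟨i, h1.1⟩, ⟨j, h1.2⟩)
      rw [mulVec_A] at h2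
      simpa [hij] using h2
    · rw [tc_poly]
      apply Finset.sum_eq_zero
      intro q _
      have hq1 := q.1.2
      have hq2 := q.2.2
      by_cases h3 : n ≤ i
      · rw [Nat.choose_eq_zero_of_lt (show (q.1 : ℕ) < i by omega)]
        simp
      · rw [Nat.choose_eq_zero_of_lt (show (q.2 : ℕ) < j by omega)]
        simp

lemma injAt_iff {n : ℕ} (x : ι → Item) (p : ι → R × R) :
    InjAt n x p ↔ ∀ c : B n → R, (A n x p).mulVec c = 0 → c = 0 := by
  constructor
  · intro h c hc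
    exact poly_eq_zero (h _ (low_poly c) ((cond_iff x p c).2 hc))
  · intro h F hF hc
    obtain ⟨c, rfl⟩ := exists_poly hF
    rw [h c ((cond_iff x p c).1 hc)]
    simp [poly]

variable [Fintype ι]

/-- Gram determinant -/
noncomputable def D (n : ℕ) (x : ι → Item) (p : ι → R × R) : R :=
  ((A n x p).transpose * A n x p).det

lemma injAt_of_D [IsDomain R] {n : ℕ} {x : ι → Item} {p : ι → R × R} (h : D n x p ≠ 0) :
    InjAt n x p := by
  rw [injAt_iff]
  intro c hc
  by_contra hne
  apply h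
  unfold D
  rw [← Matrix.exists_mulVec_eq_zero_iff]
  refine ⟨c, hne, ?_⟩
  rw [← Matrix.mulVec_mulVec, hc, Matrix.mulVec_zero]

omit [Fintype ι] in
lemma A_map {S : Type*} [CommRing S] (φ : R →+* S) (n : ℕ) (x : ι → Item) (p : ι → R × R) :
    (A n x p).map φ = A n x (fun k => (φ (p k).1, φ (p k).2)) := by
  ext r q
  simp only [A, Matrix.map_apply]
  split_ifs with h
  · simp only [map_mul, map_pow, map_natCast]
    congr 2
    cases x r.1 <;> simp [Item.y]
  · simp

lemma D_map {S : Type*} [CommRing S] (φ : R →+* S) (n : ℕ) (x : ι → Item) (p : ι → R × R) :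
    φ (D n x p) = D n x (fun k => (φ (p k).1, φ (p k).2)) := by
  unfold D
  rw [← A_map, RingHom.map_det]
  congr 1
  ext a b
  simp [Matrix.mul_apply]

end ring

section real

variable {ι : Type*} [Fintype ι]

lemma mulVec_eq_zero_of_gram {α β : Type*} [Fintype α] [Fintype β] (M : Matrix α β ℝ) (c : β → ℝ)
    (h : (M.transpose * M).mulVec c = 0) : M.mulVec c = 0 := by
  have h1 : dotProduct (M.mulVec c) (M.mulVec c) = 0 := by
    rw [← Matrix.mulVec_mulVec] at h
    rw [Matrix.dotProduct_mulVec, ← Matrix.mulVec_transpose, h, zero_dotProduct]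
  exact dotProduct_self_eq_zero.1 h1

lemma injAt_iff_D {n : ℕ} {x : ι → Item} {p : ι → ℝ × ℝ} : InjAt n x p ↔ D n x p ≠ 0 := by
  refine ⟨fun h h0 => ?_, injAt_of_D⟩
  unfold D at h0
  rw [← Matrix.exists_mulVec_eq_zero_iff] at h0
  obtain ⟨c, hc, hc0⟩ := h0
  exact hc ((injAt_iff x p).1 h c (mulVec_eq_zero_of_gram _ _ hc0))

/-- generic parameters -/
noncomputable def gp (ι : Type*) : ι → MvPolynomial (ι × Bool) ℝ × MvPolynomial (ι × Bool) ℝ :=
  fun k => (MvPolynomial.X (k, false), MvPolynomial.X (k, true))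

/-- values of the variables -/
def vals {ι R : Type*} (p : ι → R × R) : ι × Bool → R := fun v => if v.2 then (p v.1).2 else (p v.1).1

lemma eval_D {n : ℕ} (x : ι → Item) (p : ι → ℝ × ℝ) :
    MvPolynomial.eval (vals p) (D n x (gp ι)) = D n x p := by
  rw [D_map]
  simp [gp, vals]

lemma D_ne_zero_of_inj {n : ℕ} {x : ι → Item} (h : Inj n x) : D n x (gp ι) ≠ 0 := by
  obtain ⟨p, hp⟩ := h
  intro h0
  apply injAt_iff_D.1 hp
  rw [← eval_D, h0, map_zero]

lemma exists_eval_ne {σ : Type*} (Q : MvPolynomial σ ℝ) (h : Q ≠ 0) : ∃ v : σ → ℝ, MvPolynomial.eval v Q ≠ 0 := by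
  by_contra hcon
  refine h (MvPolynomial.funext (fun v => ?_))
  rw [map_zero]
  by_contra h1
  exact hcon ⟨v, h1⟩

/-- parameters which are good for two statements, distinct abscissae, off the line -/
lemma exists_good {n n' : ℕ} {x x' : ι → Item} (h : Inj n x) (h' : Inj n' x') :
    ∃ p : ι → ℝ × ℝ, InjAt n x p ∧ InjAt n' x' p ∧ (∀ k, (p k).2 ≠ 0) ∧
      (∀ k l, k ≠ l → (p k).1 ≠ (p l).1) := by
  classical
  set Q1 : MvPolynomial (ι × Bool) ℝ := ∏ k : ι, MvPolynomial.X (k, true) with hQ1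
  set Q2 : MvPolynomial (ι × Bool) ℝ := ∏ k : ι, ∏ l : ι,
    (if k = l then 1 else (MvPolynomial.X (k, false) - MvPolynomial.X (l, false))) with hQ2
  have hQ1' : Q1 ≠ 0 := Finset.prod_ne_zero_iff.2 (fun k _ => MvPolynomial.X_ne_zero _)
  have hQ2' : Q2 ≠ 0 := by
    refine Finset.prod_ne_zero_iff.2 (fun k _ => Finset.prod_ne_zero_iff.2 (fun l _ => ?_))
    split_ifs with hkl
    · exact one_ne_zero
    · rw [sub_ne_zero]
      intro he
      have := MvPolynomial.X_injective (R := ℝ) he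
      simp [hkl] at this
  obtain ⟨v, hv⟩ := exists_eval_ne (D n x (gp ι) * D n' x' (gp ι) * (Q1 * Q2))
    (mul_ne_zero (mul_ne_zero (D_ne_zero_of_inj h) (D_ne_zero_of_inj h')) (mul_ne_zero hQ1' hQ2'))
  rw [map_mul, map_mul, map_mul] at hv
  set p : ι → ℝ × ℝ := fun k => (v (k, false), v (k, true)) with hp
  have hvp : v = vals p := by
    funext ⟨k, b⟩
    cases b <;> simp [vals, hp]
  have h1 := left_ne_zero_of_mul (left_ne_zero_of_mul hv)
  have h2 := right_ne_zero_of_mul (left_ne_zero_of_mul hv)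
  have h3 := left_ne_zero_of_mul (right_ne_zero_of_mul hv)
  have h4 := right_ne_zero_of_mul (right_ne_zero_of_mul hv)
  rw [hvp, eval_D] at h1 h2
  refine ⟨p, injAt_iff_D.2 h1, injAt_iff_D.2 h2, ?_, ?_⟩
  · intro k
    rw [hQ1, map_prod, Finset.prod_ne_zero_iff] at h3
    simpa using h3 k (Finset.mem_univ k)
  · intro k l hkl
    rw [hQ2, map_prod, Finset.prod_ne_zero_iff] at h4
    have h5 := h4 k (Finset.mem_univ k)
    rw [map_prod, Finset.prod_ne_zero_iff] at h5
    have h6 := h5 l (Finset.mem_univ l)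
    rw [if_neg hkl, map_sub, sub_ne_zero] at h6
    simpa using h6

end real

end Pool.Agent.Helper1.FH
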