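import Pool.Agent.Helper1.FH.Vtr

/-!
# Bookkeeping for configurations (MP_6ec8e4_ag)
-/

namespace Pool.Agent.Helper1.FH

lemma two_T (m : ℕ) : 2 * T m = m * (m + 1) := by
  unfold T
  exact Nat.mul_div_cancel' (Nat.even_mul_succ_self m).two_dvd

lemma T_succ (m : ℕ) : T (m + 1) = T m + (m + 1) := by
  have h1 := two_T m
  have h2 := two_T (m + 1)
  nlinarith

@[simp] lemma T_zero : T 0 = 0 := rfl

@[simp] lemma T_one : T 1 = 1 := rfl

lemma T_mono {a b : ℕ} (h : a ≤ b) : T a ≤ T b := by
  have h1 := two_T a
  have h2 := two_T b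
  nlinarith [Nat.mul_le_mul h (Nat.succ_le_succ h)]

lemma le_T (m : ℕ) : m ≤ T m := by
  have h1 := two_T m
  rcases Nat.eq_zero_or_pos m with h | h
  · simp [h]
  · nlinarith

/-- validity: shapes with `g ≤ m ≤ M` -/
def Item.ok (M : ℕ) : Item → Prop
  | .on m g => m ≤ M ∧ g ≤ m
  | .off m => m ≤ M

/-- 1 for on-items with non-zero trace -/
def Item.act (x : Item) : ℕ := if 0 < x.tr then 1 else 0

/-- 1 for general simple points -/
def Item.fill : Item → ℕ
  | .on _ _ => 0
  | .off m => if m = 1 then 1 else 0

/-- 1 for off-items of multiplicity at least 2 -/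
def Item.fat : Item → ℕ
  | .on _ _ => 0
  | .off m => if 2 ≤ m then 1 else 0

/-- 1 for off-items of multiplicity at least 1 -/
def Item.offp : Item → ℕ
  | .on _ _ => 0
  | .off m => if 1 ≤ m then 1 else 0

/-- 1 for on-items which are or will become simple points -/
def Item.cc : Item → ℕ
  | .on m g => if 0 < T m - g ∧ g ≠ 1 then 1 else 0
  | .off _ => 0

/-- 1 for simple on-items -/
def Item.simp : Item → ℕ
  | .on m g => if T m - g = 1 then 1 else 0
  | .off _ => 0

lemma ok_shift {M : ℕ} {x : Item} (h : x.ok M) : x.shift.ok M := by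
  cases x with
  | on m g =>
    simp only [Item.ok, Item.shift] at *
    omega
  | off m => exact h

lemma sz_shift {M : ℕ} {x : Item} (h : x.ok M) : x.shift.sz + x.tr = x.sz := by
  cases x with
  | on m g =>
    simp only [Item.ok, Item.shift, Item.sz, Item.tr] at *
    rcases m with _ | m
    · simp at h
      simp [h]
    · simp only [Nat.add_sub_cancel]
      have h1 := T_succ m
      have h2 := le_T m
      rcases Nat.lt_or_ge g (m + 1) with h3 | h3
      · rw [if_pos h3, min_eq_left (by omega)]
        omega
      · rw [if_neg (by omega), min_eq_right (by omega)]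
        omega
  | off m => simp [Item.shift, Item.sz, Item.tr]

lemma tr_shift (x : Item) : x.shift.tr + x.act ≤ x.tr := by
  cases x with
  | on m g =>
    simp only [Item.shift, Item.act, Item.tr] at *
    split_ifs <;> omega
  | off m => simp [Item.shift, Item.act, Item.tr]

lemma act_shift (x : Item) : x.shift.act ≤ x.act := by
  have h := tr_shift x
  unfold Item.act at *
  split_ifs at * <;> omega

lemma act_le_tr (x : Item) : x.act ≤ x.tr := by
  unfold Item.act
  split_ifs <;> omega

lemma tr_le {M : ℕ} {x : Item} (h : x.ok M) : x.tr ≤ M * x.act := by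
  have h1 : x.tr ≤ M := by
    cases x with
    | on m g =>
      simp only [Item.ok, Item.tr] at *
      split_ifs <;> omega
    | off m => simp [Item.tr]
  unfold Item.act
  split_ifs with h2
  · omega
  · omega

/-- on-items have at most `(M+1)/2` times their trace as number of conditions -/
lemma sz_le_on {M m g : ℕ} (h : (Item.on m g).ok M) :
    2 * (Item.on m g).sz ≤ (M + 1) * (Item.on m g).tr := by
  simp only [Item.ok, Item.sz, Item.tr] at *
  have h1 := two_T m
  split_ifs with h2
  · have h3 : m * (m + 1) ≤ (M + 1) * m := by nlinarith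
    omega
  · have h3 : g = m := by omega
    subst h3
    rcases g with _ | g
    · simp
    · simp only [Nat.add_sub_cancel]
      have h4 := T_succ g
      have h5 := two_T g
      have h6 : g * (g + 1) ≤ (M + 1) * g := by nlinarith
      omega

lemma sz_le {M : ℕ} {x : Item} (h : x.ok M) :
    2 * x.sz ≤ (M + 1) * x.tr + 2 * T M * x.offp := by
  cases x with
  | on m g =>
    have := sz_le_on h
    omega
  | off m =>
    simp only [Item.ok, Item.sz, Item.tr, Item.offp] at *
    split_ifs with h2
    · have := T_mono h
      omega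
    · have : m = 0 := by omega
      simp [this]

lemma offp_shift (x : Item) : x.shift.offp = x.offp := by cases x <;> rfl
lemma fill_shift (x : Item) : x.shift.fill = x.fill := by cases x <;> rfl
lemma fat_shift (x : Item) : x.shift.fat = x.fat := by cases x <;> rfl

lemma offp_eq (x : Item) : x.offp = x.fill + x.fat := by
  cases x with
  | on m g => rfl
  | off m =>
    simp only [Item.offp, Item.fill, Item.fat]
    split_ifs <;> omega

lemma cc_le_act {M : ℕ} {x : Item} (h : x.ok M) : x.cc ≤ x.act := by
  cases x with
  | on m g =>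
    have h1 := sz_le_on h
    simp only [Item.sz] at h1
    unfold Item.cc
    by_cases h2 : 0 < T m - g ∧ g ≠ 1
    · simp only [if_pos h2]
      unfold Item.act
      by_cases h3 : 0 < (Item.on m g).tr
      · rw [if_pos h3]
      · exfalso
        have h4 : (Item.on m g).tr = 0 := by omega
        rw [h4] at h1
        omega
    · simp only [if_neg h2]
      exact Nat.zero_le _
  | off m => simp [Item.cc]

lemma simp_cases {m g : ℕ} (hg : g ≤ m) (h : T m - g = 1) : (m = 1 ∧ g = 0) ∨ (m = 2 ∧ g = 2) := by
  have h1 := two_T m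
  rcases Nat.lt_or_ge m 3 with h2 | h2
  · have h4 : T 2 = 3 := rfl
    interval_cases m
    · simp at h
    · left
      simp at h
      omega
    · right
      omega
  · exfalso
    have h3 : T m - m ≥ 3 := by
      have : 2 * m + 6 ≤ m * (m + 1) := by nlinarith
      omega
    omega

lemma simp_le_act {M : ℕ} {x : Item} (h : x.ok M) : x.simp ≤ x.act := by
  cases x with
  | on m g =>
    simp only [Item.ok] at h
    unfold Item.simp
    by_cases h1 : T m - g = 1
    · rcases simp_cases h.2 h1 with ⟨rfl, rfl⟩ | ⟨rfl, rfl⟩ <;> simp [Item.tr, Item.act, T]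
    · simp only [if_neg h1]
      exact Nat.zero_le _
  | off m => simp [Item.simp]

lemma cc_shift {M : ℕ} {x : Item} (h : x.ok M) : x.cc ≤ x.shift.cc + x.simp := by
  cases x with
  | on m g =>
    simp only [Item.ok] at h
    unfold Item.cc Item.simp Item.shift
    simp only
    split_ifs with h1 h2 h3 h3
    · omega
    · omega
    · omega
    · exfalso
      apply h2
      rcases m with _ | m
      · simp at h1
      · simp only [Nat.add_sub_cancel]
        have h4 := T_succ m
        have h5 := le_T m
        rcases m with _ | _ | m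
        · have h6 : T (0 + 1) = 1 := rfl
          omega
        · have h6 : T (0 + 1 + 1) = 3 := rfl
          have h7 : T (0 + 1) = 1 := rfl
          constructor <;> omega
        · have h8 := two_T (m + 1 + 1)
          have h9 : m + 1 + 1 < T (m + 1 + 1) := by nlinarith
          constructor <;> omega
    · omega
    · omega
    · omega
    · omega
  | off m => simp [Item.cc]

section sums

variable {ι : Type*} [Fintype ι]

/-- total of a quantity -/
def tot (f : Item → ℕ) (x : ι → Item) : ℕ := ∑ k, f (x k)

lemma tot_le {f g : Item → ℕ} {x : ι → Item} (h : ∀ k, f (x k) ≤ g (x k)) : tot f x ≤ tot g x :=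
  Finset.sum_le_sum (fun k _ => h k)

lemma tot_update [DecidableEq ι] (f : Item → ℕ) (x : ι → Item) (k : ι) (z : Item) :
    tot f (Function.update x k z) + f (x k) = tot f x + f z := by
  unfold tot
  rw [← Finset.add_sum_erase _ _ (Finset.mem_univ k), ← Finset.add_sum_erase Finset.univ (fun k => f (x k)) (Finset.mem_univ k)]
  rw [Function.update_self]
  have h1 : ∑ l ∈ Finset.univ.erase k, f (Function.update x k z l) = ∑ l ∈ Finset.univ.erase k, f (x l) := by
    apply Finset.sum_congr rfl
    intro l hl
    rw [Function.update_of_ne (Finset.ne_of_mem_erase hl)]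
  rw [h1]
  ring

/-- all items are valid -/
def Ok (M : ℕ) (x : ι → Item) : Prop := ∀ k, (x k).ok M

/-- Horace shift of a configuration -/
def sh (x : ι → Item) : ι → Item := fun k => (x k).shift

omit [Fintype ι] in
lemma Ok.sh {M : ℕ} {x : ι → Item} (h : Ok M x) : Ok M (sh x) := fun k => ok_shift (h k)

omit [Fintype ι] in
lemma Ok.update [DecidableEq ι] {M : ℕ} {x : ι → Item} (h : Ok M x) {k : ι} {z : Item} (hz : z.ok M) :
    Ok M (Function.update x k z) := by
  intro l
  by_cases hl : l = k
  · subst hl
    rwa [Function.update_self]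
  · rw [Function.update_of_ne hl]
    exact h l

lemma tot_sz_sh {M : ℕ} {x : ι → Item} (h : Ok M x) : tot Item.sz (sh x) + tot Item.tr x = tot Item.sz x := by
  unfold tot sh
  rw [← Finset.sum_add_distrib]
  exact Finset.sum_congr rfl (fun k _ => sz_shift (h k))

lemma tot_tr_sh (x : ι → Item) : tot Item.tr (sh x) + tot Item.act x ≤ tot Item.tr x := by
  unfold tot sh
  rw [← Finset.sum_add_distrib]
  exact Finset.sum_le_sum (fun k _ => tr_shift (x k))

lemma tot_act_sh (x : ι → Item) : tot Item.act (sh x) ≤ tot Item.act x :=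
  Finset.sum_le_sum (fun k _ => act_shift (x k))

lemma tot_tr_le {M : ℕ} {x : ι → Item} (h : Ok M x) : tot Item.tr x ≤ M * tot Item.act x := by
  unfold tot
  rw [Finset.mul_sum]
  exact Finset.sum_le_sum (fun k _ => tr_le (h k))

lemma tot_act_le (x : ι → Item) : tot Item.act x ≤ tot Item.tr x :=
  Finset.sum_le_sum (fun k _ => act_le_tr (x k))

lemma tot_sz_le {M : ℕ} {x : ι → Item} (h : Ok M x) :
    2 * tot Item.sz x ≤ (M + 1) * tot Item.tr x + 2 * T M * tot Item.offp x := by
  unfold tot
  rw [Finset.mul_sum, Finset.mul_sum, Finset.mul_sum, ← Finset.sum_add_distrib]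
  exact Finset.sum_le_sum (fun k _ => sz_le (h k))

lemma tot_offp_sh (x : ι → Item) : tot Item.offp (sh x) = tot Item.offp x :=
  Finset.sum_congr rfl (fun k _ => offp_shift (x k))

lemma tot_fill_sh (x : ι → Item) : tot Item.fill (sh x) = tot Item.fill x :=
  Finset.sum_congr rfl (fun k _ => fill_shift (x k))

lemma tot_fat_sh (x : ι → Item) : tot Item.fat (sh x) = tot Item.fat x :=
  Finset.sum_congr rfl (fun k _ => fat_shift (x k))

lemma tot_offp_eq (x : ι → Item) : tot Item.offp x = tot Item.fill x + tot Item.fat x := by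
  unfold tot
  rw [← Finset.sum_add_distrib]
  exact Finset.sum_congr rfl (fun k _ => offp_eq (x k))

lemma tot_cc_le {M : ℕ} {x : ι → Item} (h : Ok M x) : tot Item.cc x ≤ tot Item.act x :=
  Finset.sum_le_sum (fun k _ => cc_le_act (h k))

lemma tot_cc_sh {M : ℕ} {x : ι → Item} (h : Ok M x) :
    tot Item.cc x ≤ tot Item.cc (sh x) + tot Item.simp x := by
  unfold tot sh
  rw [← Finset.sum_add_distrib]
  exact Finset.sum_le_sum (fun k _ => cc_shift (h k))

lemma exists_pos {f : Item → ℕ} {x : ι → Item} (h : 0 < tot f x) : ∃ k, 0 < f (x k) := by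
  by_contra hcon
  have h1 : tot f x = 0 := Finset.sum_eq_zero (fun k _ => by
    by_contra h2
    exact hcon ⟨k, Nat.pos_of_ne_zero h2⟩)
  omega

end sums

end Pool.Agent.Helper1.FH
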