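import Pool.Agent.Helper1.FH.Dif

/-!
# Simple points on the line against general simple points (MP_6ec8e4_ag)
-/

namespace Pool.Agent.Helper1.FH

open Polynomial Module

lemma exists_eval_points {ι : Type*} [DecidableEq ι] (S : Finset ι) :
    ∀ (W : Submodule ℝ (Polynomial ℝ)), FiniteDimensional ℝ W → finrank ℝ W ≤ S.card →
      ∃ t : ι → ℝ, ∀ f ∈ W, (∀ k ∈ S, f.eval (t k) = 0) → f = 0 := by
  induction S using Finset.induction_on with
  | empty =>
    intro W hW h
    have h1 : finrank ℝ W = 0 := by simpa using h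
    have h2 : W = ⊥ := Submodule.finrank_eq_zero.1 h1
    refine ⟨fun _ => 0, fun f hf _ => ?_⟩
    rw [h2] at hf
    exact (Submodule.mem_bot ℝ).1 hf
  | insert a S ha ih =>
    intro W hW h
    by_cases hb : W = ⊥
    · refine ⟨fun _ => 0, fun f hf _ => ?_⟩
      rw [hb] at hf
      exact (Submodule.mem_bot ℝ).1 hf
    · obtain ⟨f0, hf0, hne⟩ := Submodule.exists_mem_ne_zero_of_ne_bot hb
      have h1 : ∃ t0 : ℝ, f0.eval t0 ≠ 0 := by
        by_contra hcon
        apply hne
        apply Polynomial.funext
        intro t0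
        rw [eval_zero]
        by_contra h2
        exact hcon ⟨t0, h2⟩
      obtain ⟨t0, ht0⟩ := h1
      have hlt : W ⊓ LinearMap.ker (leval t0) < W := by
        refine lt_of_le_of_ne inf_le_left (fun he => ?_)
        rw [← he] at hf0
        have h3 := (Submodule.mem_inf.1 hf0).2
        rw [LinearMap.mem_ker] at h3
        exact ht0 h3
      have h2 := Submodule.finrank_lt_finrank_of_lt hlt
      have hfin : FiniteDimensional ℝ (W ⊓ LinearMap.ker (leval t0) : Submodule ℝ (Polynomial ℝ)) :=
        Submodule.finiteDimensional_of_le (inf_le_left : _ ≤ W)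
      rw [Finset.card_insert_of_notMem ha] at h
      obtain ⟨t, ht⟩ := ih _ hfin (by omega)
      refine ⟨Function.update t a t0, fun f hf hz => ?_⟩
      apply ht f
      · refine Submodule.mem_inf.2 ⟨hf, ?_⟩
        rw [LinearMap.mem_ker]
        have h4 := hz a (Finset.mem_insert_self _ _)
        rw [Function.update_self] at h4
        exact h4
      · intro k hk
        have h4 := hz k (Finset.mem_insert_of_mem hk)
        rwa [Function.update_of_ne (by rintro rfl; exact ha hk)] at h4

lemma tc_smul (a : ℝ) (F : Polynomial (Polynomial ℝ)) (u w : ℝ) (i j : ℕ) :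
    tc (a • F) u w i j = a * tc F u w i j := by
  have h1 : a • F = C (C a) * F := by
    rw [← smul_eq_C_mul]
    ext b c
    simp
  rw [h1]
  unfold tc
  rw [taylor_mul, taylor_C, coeff_C_mul, taylor_mul, taylor_C, coeff_C_mul]

lemma tc_sub (F G : Polynomial (Polynomial ℝ)) (u w : ℝ) (i j : ℕ) :
    tc (F - G) u w i j = tc F u w i j - tc G u w i j := by
  simp [tc]

/-- `tc` as a linear functional -/
noncomputable def tcL (u w : ℝ) (i j : ℕ) : Polynomial (Polynomial ℝ) →ₗ[ℝ] ℝ where
  toFun F := tc F u w i j
  map_add' F G := tc_add F G u w i j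
  map_smul' a F := by simp [tc_smul]

variable {ι : Type*} [Fintype ι] [DecidableEq ι]

theorem vtrick {n : ℕ} {x : ι → Item} (S : Finset ι)
    (hS : ∀ k ∈ S, ∃ m g, x k = .on m g ∧ sl m g 0 = 1)
    (h1 : Inj (n + 1) (fun k => if k ∈ S then .off 1 else x k))
    (h2 : Inj n (fun k => (x k).shift)) : Inj (n + 1) x := by
  obtain ⟨p, hp1, hp2, hw, -⟩ := exists_good h1 h2
  -- solutions of the conditions outside `S`
  set V : Submodule ℝ (Polynomial (Polynomial ℝ)) :=
    { carrier := {F | Low (n + 1) F ∧ ∀ k, k ∉ S → Cond (x k) (p k) F}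
      add_mem' := by
        rintro F G ⟨hF, hF'⟩ ⟨hG, hG'⟩
        refine ⟨fun i j hij => by simp [hF i j hij, hG i j hij], fun k hk i j hij => ?_⟩
        rw [tc_add, hF' k hk i j hij, hG' k hk i j hij, add_zero]
      zero_mem' := ⟨fun i j _ => by simp, fun k _ i j _ => tc_zero _ _ _ _⟩
      smul_mem' := by
        rintro a F ⟨hF, hF'⟩
        refine ⟨fun i j hij => by simp [hF i j hij], fun k hk i j hij => ?_⟩
        rw [tc_smul, hF' k hk i j hij, mul_zero] } with hV
  have hVmem : ∀ F, F ∈ V ↔ (Low (n + 1) F ∧ ∀ k, k ∉ S → Cond (x k) (p k) F) := fun F => Iff.rfl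
  -- `V` has dimension at most `|S|`
  set L : V →ₗ[ℝ] (S → ℝ) := LinearMap.pi (fun k => (tcL (p k).1 (p k).2 0 0).comp V.subtype) with hL
  have hLinj : Function.Injective L := by
    intro F G hFG
    apply Subtype.ext
    rw [← sub_eq_zero]
    have hmem : F.1 - G.1 ∈ V := V.sub_mem F.2 G.2
    apply hp1 _ hmem.1
    intro k
    show Cond (if k ∈ S then Item.off 1 else x k) (p k) (F.1 - G.1)
    by_cases hk : k ∈ S
    · rw [if_pos hk]
      intro i j hij
      simp only [Item.slice] at hij
      have hi : i = 0 := by omega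
      have hj : j = 0 := by omega
      subst hi hj
      have h3 : tc F.1 (p k).1 (p k).2 0 0 = tc G.1 (p k).1 (p k).2 0 0 := congrFun hFG ⟨k, hk⟩
      rw [tc_sub]
      simp only [Item.y]
      rw [h3, sub_self]
    · rw [if_neg hk]
      exact hmem.2 k hk
  have hVfin : FiniteDimensional ℝ V := Module.Finite.of_injective L hLinj
  have hVrank : finrank ℝ V ≤ S.card := by
    have h3 := LinearMap.finrank_le_finrank_of_injective hLinj
    simpa using h3
  -- the restriction to the line
  set R : Polynomial (Polynomial ℝ) →ₗ[ℝ] Polynomial ℝ := (lcoeff (Polynomial ℝ) 0).restrictScalars ℝ with hR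
  have hRap : ∀ F, R F = F.coeff 0 := fun F => rfl
  obtain ⟨t, ht⟩ := exists_eval_points S (V.map R) inferInstance
    (le_trans (Submodule.finrank_map_le R V) hVrank)
  refine ⟨fun k => if k ∈ S then (t k, 0) else p k, fun F hF hc => ?_⟩
  have hFV : F ∈ V := by
    rw [hVmem]
    refine ⟨hF, fun k hk => ?_⟩
    have h3 : Cond (x k) (if k ∈ S then (t k, 0) else p k) F := hc k
    rwa [if_neg hk] at h3
  have h0 : F.coeff 0 = 0 := by
    apply ht
    · exact ⟨F, hFV, rfl⟩
    · intro k hk
      obtain ⟨m, g, hm, hsl⟩ := hS k hk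
      have h3 : Cond (x k) (if k ∈ S then (t k, 0) else p k) F := hc k
      rw [if_pos hk, hm] at h3
      have h4 := h3 0 0 (by simp only [Item.slice]; omega)
      simp only [Item.y] at h4
      rw [tc_w_zero] at h4
      simpa [taylor_coeff] using h4
  have h3 := eq_X_mul_divX h0
  have h4 : F.divX = 0 := by
    apply hp2
    · intro i j hij
      rw [coeff_divX]
      exact hF i (j + 1) (by omega)
    · intro k
      show Cond (x k).shift (p k) F.divX
      by_cases hk : k ∈ S
      · obtain ⟨m, g, hm, hsl⟩ := hS k hk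
        rw [hm]
        intro i j hij
        exfalso
        simp only [Item.shift, Item.slice, sl_shift] at hij
        unfold sl at hij hsl
        split_ifs at hij hsl <;> omega
      · apply cond_shift (hw k)
        rw [← h3]
        exact ((hVmem F).1 hFV).2 k hk
  rw [h3, h4, mul_zero]

end Pool.Agent.Helper1.FH
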